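import Pool.Agent.J4H53.MS.Digits

/-!
# The blocks
-/

open Real MeasureTheory Set Filter
open scoped Topology ComplexConjugate

namespace Pool.Agent.J4H53.MS

theorem mob_zero (z : ℂ) : mob 0 z = z := by simp [mob]

theorem Phi_zero (θ : ℝ) : Phi 0 θ = E θ := mob_zero _

theorem E_pow_exp (ν i : ℕ) (θ : ℝ) :
    E θ ^ ν * Complex.exp (-(((ν + i : ℕ) : ℤ) * θ * Complex.I)) =
      Complex.exp (-(i * θ * Complex.I)) := by
  rw [E, ← Complex.exp_nat_mul, ← Complex.exp_add]
  congr 1
  push_cast
  ring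

/-- A lower bound for the coefficients of a packet near its frequency. -/
theorem fc_pk_ge {D : ℝ} (hD : 1 ≤ D) (ν i : ℕ) (hi : 2 * (i : ℝ) ≤ D) (t : ℝ) :
    1 / (26 * D) ≤ ‖fc (fun θ => pk D ν (E t) (E θ)) ((ν + i : ℕ) : ℤ)‖ := by
  have hD0 : 0 < D := by linarith
  have hpi := pi_gt_three
  have hEc := continuous_E
  have hbc := continuous_bump D 1
  set g : ℝ → ℂ := fun θ => ((bump D 1 (E θ) ^ 2 : ℝ) : ℂ) * Complex.exp (-(i * θ * Complex.I)) with hg
  have hgc : Continuous g := by fun_prop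
  have hper : Function.Periodic g (2 * π) := fun θ => by
    simp only [hg]
    rw [E_periodic θ]
    congr 1
    have := Complex.exp_int_mul_two_pi_mul_I (-(i : ℤ))
    have e1 : -((i : ℂ) * ((θ + 2 * π : ℝ) : ℂ) * Complex.I) =
        -(i * θ * Complex.I) + ((-(i : ℤ) : ℤ) : ℂ) * (2 * π * Complex.I) := by
      push_cast; ring
    rw [e1, Complex.exp_add, this, mul_one]
  have h1 : fc (fun θ => pk D ν (E t) (E θ)) ((ν + i : ℕ) : ℤ) =
      (2 * π : ℂ)⁻¹ * (Complex.exp (-(i * t * Complex.I)) * ∫ θ in (-π)..π, g θ) := by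
    rw [fc]
    congr 1
    have e1 : ∀ θ : ℝ, pk D ν (E t) (E θ) * Complex.exp (-(((ν + i : ℕ) : ℤ) * θ * Complex.I)) =
        Complex.exp (-(i * t * Complex.I)) * g (θ - t) := by
      intro θ
      have e2 : bump D (E t) (E θ) = bump D 1 (E (θ - t)) := by
        unfold bump
        have : E θ - E t = E t * (E (θ - t) - 1) := by
          rw [mul_sub, ← E_add, mul_one]
          congr 2
          ring
        rw [this, norm_mul, norm_E, one_mul]
      have e3 := E_pow_exp ν i θ
      have e4 : Complex.exp (-(i * θ * Complex.I)) =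
          Complex.exp (-(i * t * Complex.I)) * Complex.exp (-(i * ((θ - t : ℝ) : ℂ) * Complex.I)) := by
        rw [← Complex.exp_add]
        congr 1
        push_cast
        ring
      unfold pk
      rw [e2, hg]
      simp only
      calc E θ ^ ν * ((bump D 1 (E (θ - t)) ^ 2 : ℝ) : ℂ) *
            Complex.exp (-(((ν + i : ℕ) : ℤ) * θ * Complex.I)) =
          (E θ ^ ν * Complex.exp (-(((ν + i : ℕ) : ℤ) * θ * Complex.I))) *
            ((bump D 1 (E (θ - t)) ^ 2 : ℝ) : ℂ) := by ring
        _ = _ := by rw [e3, e4]; ring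
    simp only [e1]
    rw [intervalIntegral.integral_const_mul, intervalIntegral.integral_comp_sub_right g t]
    have h2 : 2 * π - t = 0 - t + 2 * π := by ring
    rw [h2, hper.intervalIntegral_add_eq (0 - t) (-π)]
    have h3 : -π + 2 * π = π := by ring
    rw [h3]
  have h2 : ‖Complex.exp (-(i * t * Complex.I))‖ = 1 := by
    rw [Complex.norm_exp]
    simp
  rw [h1, norm_mul, norm_mul, h2, one_mul]
  have h3 : ‖(2 * π : ℂ)⁻¹‖ = (2 * π)⁻¹ := by
    rw [norm_inv, norm_mul, Complex.norm_real, Complex.norm_ofNat, Real.norm_eq_abs,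
      abs_of_pos pi_pos]
  rw [h3]
  have h4 : (∫ θ in (-π)..π, g θ).re = ∫ θ in (-π)..π, bump D 1 (E θ) ^ 2 * cos (i * θ) := by
    have e1 := Complex.reCLM.intervalIntegral_comp_comm (hgc.intervalIntegrable (μ := volume) (-π) π)
    simp only [Complex.reCLM_apply] at e1
    rw [← e1]
    refine intervalIntegral.integral_congr fun θ _ => ?_
    simp only [hg]
    rw [Complex.re_ofReal_mul]
    congr 1
    have e2 : -((i : ℂ) * θ * Complex.I) = ((-(i * θ) : ℝ) : ℂ) * Complex.I := by
      push_cast; ring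
    rw [e2, Complex.exp_ofReal_mul_I_re, cos_neg]
  have h5 : ∀ θ ∈ Icc (-π) π, bump D 1 (E θ) ^ 2 / 2 ≤ bump D 1 (E θ) ^ 2 * cos (i * θ) := by
    intro θ hθ
    rcases (bump_nonneg D 1 (E θ)).eq_or_lt with h | h
    · rw [← h]; simp
    · have d1 := dist_of_bump hD0 h
      rw [← E_zero] at d1
      have d2 := E_dist (a := θ) (b := 0) (by rw [sub_zero, abs_le]; exact hθ)
      rw [sub_zero] at d2
      have d3 : |θ| ≤ π / 2 * (1 / D) := d2.trans (by gcongr)
      have d4 : |(i : ℝ) * θ| ≤ π / 4 := by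
        rw [abs_mul, abs_of_nonneg (Nat.cast_nonneg i)]
        calc (i : ℝ) * |θ| ≤ (D / 2) * (π / 2 * (1 / D)) := by
              gcongr
              linarith
          _ = π / 4 := by field_simp; norm_num
      have d5 : cos (π / 4) ≤ cos (i * θ) := by
        rw [← cos_abs (i * θ)]
        exact cos_le_cos_of_nonneg_of_le_pi (abs_nonneg _) (by linarith) d4
      rw [cos_pi_div_four] at d5
      have d6 : (1 : ℝ) ≤ √2 := by
        rw [Real.one_le_sqrt]; norm_num
      have : 0 ≤ bump D 1 (E θ) ^ 2 := sq_nonneg _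
      nlinarith
  have h6 : 1 / (4 * D) ≤ ∫ θ in (-π)..π, bump D 1 (E θ) ^ 2 * cos (i * θ) := by
    have e1 : ∫ θ in (-(1 / (2 * D)))..(1 / (2 * D)), (1 / 4 : ℝ) = 1 / (4 * D) := by
      rw [intervalIntegral.integral_const, smul_eq_mul]
      field_simp
      norm_num
    rw [← e1]
    have hs : 1 / (2 * D) ≤ 1 := by
      rw [div_le_one (by positivity)]; linarith
    have hs0 : 0 < 1 / (2 * D) := by positivity
    calc ∫ θ in (-(1 / (2 * D)))..(1 / (2 * D)), (1 / 4 : ℝ)
        ≤ ∫ θ in (-(1 / (2 * D)))..(1 / (2 * D)), bump D 1 (E θ) ^ 2 / 2 := by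
          refine intervalIntegral.integral_mono_on (by linarith) ?_ ?_ fun θ hθ => ?_
          · exact continuous_const.intervalIntegrable _ _
          · exact (by fun_prop : Continuous fun θ => bump D 1 (E θ) ^ 2 / 2).intervalIntegrable _ _
          · have f1 : ‖E θ - 1‖ ≤ 1 / (2 * D) := by
              have : ‖E θ - 1‖ ≤ |θ| := by
                rw [E, mul_comm, Complex.norm_exp_I_mul_ofReal_sub_one, Real.norm_eq_abs, abs_mul,
                  abs_two]
                have := abs_sin_le_abs (x := θ / 2)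
                rw [abs_div, abs_two] at this
                linarith
              exact this.trans (abs_le.mpr hθ)
            have f2 : 3 / 4 ≤ bump D 1 (E θ) := by
              unfold bump
              refine le_max_of_le_right ?_
              have h9 : D * ‖E θ - 1‖ ≤ 1 / 2 := by
                calc D * ‖E θ - 1‖ ≤ D * (1 / (2 * D)) := by gcongr
                  _ = 1 / 2 := by field_simp
              have h10 : 0 ≤ D * ‖E θ - 1‖ := by positivity
              have h11 : (D * ‖E θ - 1‖) ^ 2 ≤ (1 / 2) ^ 2 := by gcongr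
              rw [mul_pow] at h11
              linarith
            nlinarith
      _ ≤ ∫ θ in (-π)..π, bump D 1 (E θ) ^ 2 / 2 := by
          refine intervalIntegral.integral_mono_interval (by linarith) (by linarith) (by linarith) ?_ ?_
          · exact Eventually.of_forall fun θ => by positivity
          · exact (by fun_prop : Continuous fun θ => bump D 1 (E θ) ^ 2 / 2).intervalIntegrable _ _
      _ ≤ _ := by
          refine intervalIntegral.integral_mono_on (by linarith) ?_ ?_ h5
          · exact (by fun_prop : Continuous fun θ => bump D 1 (E θ) ^ 2 / 2).intervalIntegrable _ _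
          · exact (by fun_prop : Continuous fun θ =>
              bump D 1 (E θ) ^ 2 * cos (i * θ)).intervalIntegrable _ _
  have h7 : 1 / (4 * D) ≤ ‖∫ θ in (-π)..π, g θ‖ := by
    rw [← h4] at h6
    exact h6.trans (Complex.re_le_norm _)
  calc 1 / (26 * D) ≤ (2 * π)⁻¹ * (1 / (4 * D)) := by
        rw [← one_div, div_mul_div_comm, one_mul]
        apply one_div_le_one_div_of_le (by positivity)
        have := Real.pi_lt_d2
        nlinarith
    _ ≤ _ := by gcongr

/-- The sign of a bit. -/
def sgn (b : Bool) : ℂ := if b then 1 else -1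

theorem norm_sgn (b : Bool) : ‖sgn b‖ = 1 := by
  unfold sgn
  split <;> simp

theorem avg_signs {n : ℕ} (y₀ : Fin n) (a : Fin n → ℂ) :
    (2 : ℝ) ^ n * ‖a y₀‖ ≤ ∑ δ : Fin n → Bool, ‖∑ y, sgn (δ y) * a y‖ := by
  classical
  let e : (Fin n → Bool) → (Fin n → Bool) := fun δ y => if y = y₀ then δ y else !δ y
  have he : Function.Involutive e := by
    intro δ
    funext y
    simp only [e]
    split <;> simp
  have h1 : ∑ δ : Fin n → Bool, ‖∑ y, sgn (δ y) * a y‖ =
      ∑ δ : Fin n → Bool, ‖∑ y, sgn (e δ y) * a y‖ :=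
    (Equiv.sum_comp he.toPerm (fun δ => ‖∑ y, sgn (δ y) * a y‖)).symm
  have h2 : ∀ δ : Fin n → Bool, 2 * ‖a y₀‖ ≤ ‖∑ y, sgn (δ y) * a y‖ + ‖∑ y, sgn (e δ y) * a y‖ := by
    intro δ
    have h3 : (∑ y, sgn (δ y) * a y) + (∑ y, sgn (e δ y) * a y) = 2 * (sgn (δ y₀) * a y₀) := by
      rw [← Finset.sum_add_distrib]
      rw [Finset.sum_eq_single y₀]
      · simp only [e, if_true]
        ring
      · intro y _ hy
        simp only [e, if_neg hy]
        cases δ y <;> simp [sgn]
      · simp
    have h4 := norm_add_le (∑ y, sgn (δ y) * a y) (∑ y, sgn (e δ y) * a y)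
    rw [h3, norm_mul, norm_mul, norm_sgn, one_mul, Complex.norm_ofNat] at h4
    exact h4
  have h5 := Finset.sum_le_sum fun δ (_ : δ ∈ (Finset.univ : Finset (Fin n → Bool))) => h2 δ
  rw [Finset.sum_add_distrib, ← h1, Finset.sum_const, Finset.card_univ, Fintype.card_fun,
    Fintype.card_bool, Fintype.card_fin, nsmul_eq_mul] at h5
  push_cast at h5
  linarith

/-- Choice of signs. -/
theorem exists_signs {ι : Type*} (n : ℕ) (W : Finset ι) (a : Fin n → ι → ℂ) (sel : ι → Fin n) :
    ∃ δ : Fin n → Bool, ∑ m ∈ W, ‖a (sel m) m‖ ≤ ∑ m ∈ W, ‖∑ y, sgn (δ y) * a y m‖ := by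
  have h1 : ∑ _δ : Fin n → Bool, ∑ m ∈ W, ‖a (sel m) m‖ ≤
      ∑ δ : Fin n → Bool, ∑ m ∈ W, ‖∑ y, sgn (δ y) * a y m‖ := by
    refine (Finset.sum_comm.trans_le ?_).trans_eq Finset.sum_comm
    refine Finset.sum_le_sum fun m _ => ?_
    rw [Finset.sum_const, Finset.card_univ, Fintype.card_fun, Fintype.card_bool, Fintype.card_fin,
      nsmul_eq_mul]
    push_cast
    exact avg_signs (sel m) fun y => a y m
  obtain ⟨δ, _, h⟩ := Finset.exists_le_of_sum_le Finset.univ_nonempty h1
  exact ⟨δ, h⟩

end Pool.Agent.J4H53.MS
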