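import Pool.Agent.J4H53.MS.Mob

/-!
# Cauchy transforms and disc automorphisms
-/

open Real MeasureTheory Set Filter
open scoped Topology ComplexConjugate

namespace Pool.Agent.J4H53.MS

/-- The Cauchy transform of a function on the circle. -/
noncomputable def CT (G : ℂ → ℂ) (z : ℂ) : ℂ :=
  (2 * π : ℂ)⁻¹ * ∫ θ in (0 : ℝ)..(2 * π), G (E θ) / (1 - z * conj (E θ))

theorem den_ne' {z : ℂ} (hz : ‖z‖ < 1) (θ : ℝ) : 1 - z * conj (E θ) ≠ 0 := by
  have := den_ne (w := conj z) (z := conj (E θ)) (by simpa using hz) (by simp [norm_E])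
  simpa using this

theorem exp_neg_eq (m : ℕ) (θ : ℝ) :
    Complex.exp (-(((m : ℤ) : ℂ) * θ * Complex.I)) = conj (E θ) ^ m := by
  rw [conj_E, E, ← Complex.exp_neg, ← Complex.exp_nat_mul]
  congr 1
  push_cast
  ring

/-- Power series of a Cauchy transform. -/
theorem hasSum_cauchy {u : ℝ → ℂ} (hu : Continuous u) {z : ℂ} (hz : ‖z‖ < 1) :
    HasSum (fun m : ℕ => fc u m * z ^ m)
      ((2 * π : ℂ)⁻¹ * ∫ θ in (0 : ℝ)..(2 * π), u θ / (1 - z * conj (E θ))) := by
  obtain ⟨C, hC⟩ := (isCompact_Icc (a := (0 : ℝ)) (b := 2 * π)).exists_bound_of_continuousOn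
    hu.continuousOn
  have hcE : Continuous fun θ : ℝ => conj (E θ) := Complex.continuous_conj.comp continuous_E
  have h := intervalIntegral.hasSum_integral_of_dominated_convergence (μ := volume) (a := (0 : ℝ))
    (b := 2 * π) (F := fun (m : ℕ) (θ : ℝ) => u θ * (z * conj (E θ)) ^ m)
    (f := fun θ => u θ / (1 - z * conj (E θ))) (fun m _ => C * ‖z‖ ^ m)
    (fun m => (by fun_prop : Continuous fun θ : ℝ => u θ * (z * conj (E θ)) ^ m).aestronglyMeasurable)
    ?_ ?_ ?_ ?_
  · have h2 := h.mul_left (2 * π : ℂ)⁻¹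
    have e0 : (fun m : ℕ => fc u m * z ^ m) = fun i : ℕ =>
        (2 * π : ℂ)⁻¹ * ∫ t in (0 : ℝ)..2 * π, u t * (z * conj (E t)) ^ i := by
     funext m
     rw [fc]
     have e1 : ∀ θ : ℝ, u θ * (z * conj (E θ)) ^ m =
        (u θ * Complex.exp (-(((m : ℤ) : ℂ) * θ * Complex.I))) * z ^ m := by
      intro θ
      rw [exp_neg_eq, mul_pow]
      ring
     simp only [e1, intervalIntegral.integral_mul_const]
     ring
    rw [e0]
    exact h2
  · intro m
    refine Eventually.of_forall fun θ hθ => ?_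
    have hθ' : θ ∈ Icc (0 : ℝ) (2 * π) := by
      rw [uIoc_of_le (by positivity)] at hθ
      exact Ioc_subset_Icc_self hθ
    rw [norm_mul, norm_pow, norm_mul, RCLike.norm_conj, norm_E, mul_one]
    exact mul_le_mul_of_nonneg_right (hC θ hθ') (by positivity)
  · refine Eventually.of_forall fun θ _ => ?_
    exact (summable_geometric_of_lt_one (norm_nonneg z) hz).mul_left C
  · exact (continuous_const.intervalIntegrable _ _)
  · refine Eventually.of_forall fun θ _ => ?_
    have h1 : ‖z * conj (E θ)‖ < 1 := by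
      rw [norm_mul, RCLike.norm_conj, norm_E, mul_one]; exact hz
    have := (hasSum_geometric_of_norm_lt_one h1).mul_left (u θ)
    rw [← div_eq_mul_inv] at this
    exact this

/-- Transformation rule of the Cauchy transform. -/
theorem CT_mob {G : ℂ → ℂ} (hG : Continuous G) {w z : ℂ} (hw : ‖w‖ < 1) (hz : ‖z‖ < 1) :
    CT G (mob w z) = (2 * π : ℂ)⁻¹ * (∫ θ in (0 : ℝ)..(2 * π), G (Phi w θ) / (1 - z * conj (E θ))) +
      (2 * π : ℂ)⁻¹ * ∫ θ in (0 : ℝ)..(2 * π), G (Phi w θ) *
        (conj w * E θ / (1 - conj w * E θ)) := by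
  have hm := norm_mob_lt hw hz
  have hcE : Continuous fun θ : ℝ => conj (E θ) := Complex.continuous_conj.comp continuous_E
  have hEc := continuous_E
  have hPc := continuous_Phi hw
  have c1 : Continuous fun θ : ℝ => G (E θ) / (1 - mob w z * conj (E θ)) :=
    (hG.comp continuous_E).div (by fun_prop) fun θ => den_ne' hm θ
  have h := change_var (H := fun ζ => G ζ / (1 - mob w z * conj ζ)) hw c1
  rw [CT, ← h, ← mul_add]
  congr 1
  have c2 : Continuous fun θ : ℝ => G (Phi w θ) / (1 - z * conj (E θ)) :=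
    (hG.comp hPc).div (by fun_prop) fun θ => den_ne' hz θ
  have c3 : Continuous fun θ : ℝ => G (Phi w θ) * (conj w * E θ / (1 - conj w * E θ)) :=
    (hG.comp hPc).mul ((by fun_prop : Continuous fun θ : ℝ => conj w * E θ).div (by fun_prop)
      fun θ => den_ne hw (norm_E θ).le)
  rw [← intervalIntegral.integral_add (c2.intervalIntegrable _ _) (c3.intervalIntegrable _ _)]
  refine intervalIntegral.integral_congr fun θ _ => ?_
  change Q w (Phi w θ) • (G (Phi w θ) / (1 - mob w z * conj (Phi w θ))) =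
    G (Phi w θ) / (1 - z * conj (E θ)) + G (Phi w θ) * (conj w * E θ / (1 - conj w * E θ))
  rw [Q_Phi hw, Complex.real_smul]
  have d1 := den_ne hw (norm_E θ).le
  have d2 := den_ne' hz θ
  have d3 := den_ne hw hz.le
  have d4 : 1 - w * conj (E θ) ≠ 0 := den_ne' hw θ
  have d5 := den_ne' hm θ
  have e1 : ((‖1 - conj w * E θ‖ ^ 2 : ℝ) : ℂ) = (1 - conj w * E θ) * (1 - w * conj (E θ)) := by
    rw [← mul_conj']
    simp
  have e2 : ((1 - ‖w‖ ^ 2 : ℝ) : ℂ) = 1 - w * conj w := by
    rw [mul_conj']; push_cast; ring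
  have e3 : conj (Phi w θ) = (conj (E θ) - conj w) / (1 - w * conj (E θ)) := by
    rw [Phi, mob, map_div₀]
    simp
  have e4 : E θ * conj (E θ) = 1 := by
    rw [mul_conj', norm_E]; simp
  have e5 : 1 - w * conj w ≠ 0 := by
    rw [← e2]
    exact_mod_cast (one_sub_sq_pos hw).ne'
  have e6 : 1 - mob w z * conj (Phi w θ) =
      (1 - w * conj w) * (1 - z * conj (E θ)) / ((1 - conj w * z) * (1 - w * conj (E θ))) := by
    have d6 : (1 - conj w * z) * (1 - w * conj (E θ)) ≠ 0 := mul_ne_zero d3 d4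
    rw [e3, mob, div_mul_div_comm, eq_div_iff d6, sub_mul, div_mul_cancel₀ _ d6]
    ring
  rw [Complex.ofReal_div, e1, e2, e6]
  have e7 : (1 : ℂ) / (1 - z * conj (E θ)) + conj w * E θ / (1 - conj w * E θ) =
      (1 - conj w * z) / ((1 - conj w * E θ) * (1 - z * conj (E θ))) := by
    field_simp
    linear_combination (-(z * conj w)) * e4
  have e8 : G (Phi w θ) / (1 - z * conj (E θ)) + G (Phi w θ) * (conj w * E θ / (1 - conj w * E θ)) =
      G (Phi w θ) * (1 / (1 - z * conj (E θ)) + conj w * E θ / (1 - conj w * E θ)) := by ring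
  rw [e8, e7]
  field_simp

end Pool.Agent.J4H53.MS
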