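import Pool.Agent.J4H53.MS.Upper

/-!
# Grouping packets into cells
-/

open Real MeasureTheory Set Filter
open scoped Topology ComplexConjugate

namespace Pool.Agent.J4H53.MS

/-- The packet with label `y` and position `ξ`. -/
noncomputable def pkt (D : ℕ) (y : ℕ) (ξ : ℝ) : ℂ → ℂ := pk D (D ^ 2 + D * y) (E (ξ / D))

/-- A signed sum of packets. -/
noncomputable def pksum (D : ℕ) (ξ : ℕ → ℝ) (ε : ℕ → ℂ) (S : Finset ℕ) (ζ : ℂ) : ℂ :=
  ∑ y ∈ S, ε y * pkt D y (ξ y) ζ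

theorem continuous_pksum (D : ℕ) (ξ : ℕ → ℝ) (ε : ℕ → ℂ) (S : Finset ℕ) :
    Continuous (pksum D ξ ε S) := by
  unfold pksum pkt
  refine continuous_finsetSum _ fun y _ => ?_
  exact continuous_const.mul (continuous_pk _ _ _)

/-- A bound for the number of overlapping packets in one cell. -/
noncomputable def ov (w : ℂ) : ℝ := 2 + π * |tau w|

theorem E_dist {a b : ℝ} (h : |a - b| ≤ π) : |a - b| ≤ π / 2 * ‖E a - E b‖ := by
  have h1 : E a - E b = E b * (E (a - b) - 1) := by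
    rw [mul_sub, ← E_add, mul_one]
    congr 2
    ring
  have h6 : ‖E (a - b) - 1‖ = 2 * |sin ((a - b) / 2)| := by
    rw [E, mul_comm, Complex.norm_exp_I_mul_ofReal_sub_one, Real.norm_eq_abs, abs_mul, abs_two]
  have h5 : 2 / π * |(a - b) / 2| ≤ |sin ((a - b) / 2)| := by
    refine Real.mul_abs_le_abs_sin ?_
    rw [abs_div, abs_two]
    linarith
  rw [h1, norm_mul, norm_E, one_mul, h6]
  rw [abs_div, abs_two] at h5
  have hpi := pi_pos
  have e1 : 2 / π * (|a - b| / 2) = |a - b| / π := by field_simp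
  rw [e1, div_le_iff₀ hpi] at h5
  linarith

theorem overlap {w : ℂ} {D : ℕ} {R : ℝ} (hR : 1 ≤ R) (hD : R ^ 2 ≤ D) {ξ : ℕ → ℝ}
    {S : Finset ℕ} {c : ℤ} (hc : ∀ y ∈ S, cell w y (ξ y) = c) (hξ : ∀ y ∈ S, |ξ y| ≤ R) (ζ : ℂ) :
    (∑ y ∈ S, bump D (E (ξ y / D)) ζ) ^ 2 ≤ ov w * ∑ y ∈ S, bump D (E (ξ y / D)) ζ ^ 2 := by
  have hD0 : (0 : ℝ) < D := by nlinarith
  have hRD : R ≤ D := by nlinarith
  have hpi := pi_gt_three
  classical
  set P := S.filter fun y => 0 < bump D (E (ξ y / D)) ζ with hP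
  have h1 : ∑ y ∈ S, bump D (E (ξ y / D)) ζ = ∑ y ∈ P, bump D (E (ξ y / D)) ζ := by
    rw [hP, Finset.sum_filter_of_ne]
    intro y _ hy
    exact lt_of_le_of_ne (bump_nonneg _ _ _) (Ne.symm hy)
  have h2 : ∑ y ∈ P, bump D (E (ξ y / D)) ζ ^ 2 ≤ ∑ y ∈ S, bump D (E (ξ y / D)) ζ ^ 2 :=
    Finset.sum_le_sum_of_subset_of_nonneg (Finset.filter_subset _ _) fun y _ _ => sq_nonneg _
  have h3 : ((P.card : ℕ) : ℝ) ≤ ov w := by
    rcases P.eq_empty_or_nonempty with h | h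
    · rw [h]
      simp only [Finset.card_empty, Nat.cast_zero]
      unfold ov
      positivity
    · have hmin := P.min'_mem h
      have hmax := P.max'_mem h
      have hle := P.min'_le _ hmax
      have hsub : P ⊆ Finset.Icc (P.min' h) (P.max' h) := fun y hy =>
        Finset.mem_Icc.mpr ⟨P.min'_le y hy, P.le_max' y hy⟩
      have hcard := Finset.card_le_card hsub
      rw [Nat.card_Icc] at hcard
      have hcard' : ((P.card : ℕ) : ℝ) ≤ (P.max' h : ℝ) - (P.min' h : ℝ) + 1 := by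
        have : (P.card : ℤ) ≤ (P.max' h : ℤ) - (P.min' h : ℤ) + 1 := by omega
        exact_mod_cast this
      set a := P.max' h
      set b := P.min' h
      rw [hP, Finset.mem_filter] at hmin hmax
      have d1 := dist_of_bump hD0 hmax.2
      have d2 := dist_of_bump hD0 hmin.2
      have d3 : ‖E (ξ a / D) - E (ξ b / D)‖ ≤ 2 / D := by
        have : E (ξ a / D) - E (ξ b / D) = (ζ - E (ξ b / D)) - (ζ - E (ξ a / D)) := by ring
        rw [this]
        refine (norm_sub_le _ _).trans ?_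
        have : (2 : ℝ) / D = 1 / D + 1 / D := by ring
        linarith
      have d4 : |ξ a / D - ξ b / D| ≤ π := by
        rw [← sub_div, abs_div, abs_of_pos hD0, div_le_iff₀ hD0]
        have e1 := hξ a hmax.1
        have e2 := hξ b hmin.1
        have := abs_sub (ξ a) (ξ b)
        nlinarith
      have d5 := E_dist d4
      have d6 : |ξ a - ξ b| ≤ π := by
        have e1 : |ξ a / D - ξ b / D| = |ξ a - ξ b| / D := by
          rw [← sub_div, abs_div, abs_of_pos hD0]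
        rw [e1] at d5
        have e2 : |ξ a - ξ b| / D ≤ π / 2 * (2 / D) := d5.trans (by gcongr)
        rw [div_le_iff₀ hD0] at e2
        have e3 : π / 2 * (2 / (D : ℝ)) * D = π := by field_simp
        linarith
      have d7 : |((a : ℝ) + tau w * ξ a) - (b + tau w * ξ b)| < 1 := by
        apply Int.abs_sub_lt_one_of_floor_eq_floor
        have e1 := hc a hmax.1
        have e2 := hc b hmin.1
        unfold cell at e1 e2
        rw [e1, e2]
      have d8 : (a : ℝ) - b < 1 + π * |tau w| := by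
        have e1 : (a : ℝ) - b = (((a : ℝ) + tau w * ξ a) - (b + tau w * ξ b)) -
            tau w * (ξ a - ξ b) := by ring
        have e2 : |tau w * (ξ a - ξ b)| ≤ π * |tau w| := by
          rw [abs_mul, mul_comm]
          gcongr
        have e3 := (abs_lt.mp d7).2
        have e4 := (abs_le.mp e2).1
        rw [e1]
        linarith
      unfold ov
      linarith
  rw [h1]
  calc (∑ y ∈ P, bump D (E (ξ y / D)) ζ) ^ 2
      ≤ (P.card : ℝ) * ∑ y ∈ P, bump D (E (ξ y / D)) ζ ^ 2 := sq_sum_le_card_mul_sum_sq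
    _ ≤ ov w * ∑ y ∈ S, bump D (E (ξ y / D)) ζ ^ 2 := by
        refine mul_le_mul h3 h2 (Finset.sum_nonneg fun y _ => sq_nonneg _) ?_
        unfold ov
        positivity

/-- The constant of the cell estimate. -/
noncomputable def C1 (w : ℂ) : ℝ := 5 * ((1 + 81 * KK w ^ 2) * ov w / (1 - ‖w‖) ^ 2)

theorem C1_pos {w : ℂ} (hw : ‖w‖ < 1) : 0 < C1 w := by
  unfold C1 ov
  have : 0 < 1 - ‖w‖ := by linarith
  positivity

/-- The estimate for one cell. -/
theorem cell_bound {w : ℂ} (hw : ‖w‖ < 1) {D : ℕ} {R : ℝ} (hR : 1 ≤ R) (hD : R ^ 2 ≤ D)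
    {ξ : ℕ → ℝ} {S : Finset ℕ} {c : ℤ} (hc : ∀ y ∈ S, cell w y (ξ y) = c)
    (hξ : ∀ y ∈ S, |ξ y| ≤ R) (hy : ∀ y ∈ S, (y : ℝ) ≤ R) {ε : ℕ → ℂ} (hε : ∀ y, ‖ε y‖ ≤ 1) :
    Summable (fun m => ‖fc (fun θ => pksum D ξ ε S (Phi w θ)) m‖) ∧
      ∑' m, ‖fc (fun θ => pksum D ξ ε S (Phi w θ)) m‖ ≤ √(C1 w * S.card) := by
  have hD0 : (0 : ℝ) < D := by nlinarith
  have hD1 : (1 : ℝ) ≤ D := by nlinarith
  have hK := KK_ge hw
  have hPc := continuous_Phi hw
  set F : ℝ → ℂ := fun θ => pksum D ξ ε S (Phi w θ) with hF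
  set F' : ℝ → ℂ := fun θ => ∑ y ∈ S, ε y * dpk D (D ^ 2 + D * y) (E (ξ y / D)) w θ with hF'
  have hder : ∀ θ, HasDerivAt F (F' θ) θ := by
    intro θ
    have : HasDerivAt (fun θ => ∑ y ∈ S, ε y * pkt D y (ξ y) (Phi w θ)) (F' θ) θ :=
      HasDerivAt.fun_sum fun y _ => (hasDerivAt_pk hw D _ _ θ).const_mul (ε y)
    exact this
  have hF'c : Continuous F' :=
    continuous_finsetSum _ fun y _ => continuous_const.mul (continuous_dpk hw _ _ _)
  have hFc : Continuous F := (continuous_pksum D ξ ε S).comp hPc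
  have hper : F (2 * π) = F 0 := by
    have := Phi_periodic w 0
    rw [zero_add] at this
    rw [hF]
    simp only [this]
  set b : ℕ → ℝ → ℝ := fun y θ => bump D (E (ξ y / D)) (Phi w θ) with hb
  have hb0 : ∀ y θ, 0 ≤ b y θ := fun y θ => bump_nonneg _ _ _
  have hb1 : ∀ y θ, b y θ ≤ 1 := fun y θ => bump_le_one _ _ _
  have hbc : ∀ y, Continuous (b y) := fun y => (continuous_bump _ _).comp hPc
  have hB0 : ∀ θ, 0 ≤ ∑ y ∈ S, b y θ := fun θ => Finset.sum_nonneg fun y _ => hb0 y θ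
  have n1 : ∀ θ, ‖F θ‖ ≤ ∑ y ∈ S, b y θ := by
    intro θ
    rw [hF]
    simp only [pksum]
    refine (norm_sum_le _ _).trans (Finset.sum_le_sum fun y _ => ?_)
    rw [norm_mul]
    have e1 := norm_pk_le hw (D : ℝ) (D ^ 2 + D * y) (E (ξ y / D)) θ
    have e2 : bump D (E (ξ y / D)) (Phi w θ) ^ 2 ≤ b y θ := by
      have := hb0 y θ
      have := hb1 y θ
      change b y θ ^ 2 ≤ b y θ
      nlinarith
    calc ‖ε y‖ * ‖pkt D y (ξ y) (Phi w θ)‖ ≤ 1 * b y θ :=
          mul_le_mul (hε y) (e1.trans e2) (norm_nonneg _) zero_le_one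
      _ = b y θ := one_mul _
  have n2 : ∀ θ, ‖F' θ - Complex.I * mid w D c * F θ‖ ≤ 9 * KK w * D * ∑ y ∈ S, b y θ := by
    intro θ
    have e0 : F' θ - Complex.I * mid w D c * F θ = ∑ y ∈ S, ε y *
        (dpk D (D ^ 2 + D * y) (E (ξ y / D)) w θ -
          Complex.I * mid w D c * pk D (D ^ 2 + D * y) (E (ξ y / D)) (Phi w θ)) := by
      rw [hF, hF']
      simp only [pksum, pkt]
      rw [Finset.mul_sum, ← Finset.sum_sub_distrib]
      refine Finset.sum_congr rfl fun y _ => ?_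
      ring
    rw [e0, Finset.mul_sum]
    refine (norm_sum_le _ _).trans (Finset.sum_le_sum fun y hyS => ?_)
    rw [norm_mul]
    have e1 := norm_dpk_le hw hD0 (D ^ 2 + D * y) (E (ξ y / D)) (mid w D c) θ (A := 5 * KK w * D)
      (fun hpos => by
        have := freq_cell hw hR hD (hy y hyS) (hξ y hyS) (norm_Phi hw θ) hpos
        rw [hc y hyS] at this
        exact this)
    have e2 := Q_le hw (norm_Phi hw θ).le
    change Q w (Phi w θ) ≤ KK w at e2
    have e3 : 5 * KK w * D * bump D (E (ξ y / D)) (Phi w θ) ^ 2 +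
        4 * D * Q w (Phi w θ) * bump D (E (ξ y / D)) (Phi w θ) ≤ 9 * KK w * D * b y θ := by
      have f0 := hb0 y θ
      have f1 := hb1 y θ
      have f2 : b y θ ^ 2 ≤ b y θ := by nlinarith
      change 5 * KK w * D * b y θ ^ 2 + 4 * D * Q w (Phi w θ) * b y θ ≤ _
      have f3 : 5 * KK w * D * b y θ ^ 2 ≤ 5 * KK w * D * b y θ := by gcongr
      have f4 : 4 * D * Q w (Phi w θ) * b y θ ≤ 4 * D * KK w * b y θ := by gcongr
      linarith
    calc ‖ε y‖ * _ ≤ 1 * (9 * KK w * D * b y θ) :=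
          mul_le_mul (hε y) (e1.trans e3) (norm_nonneg _) zero_le_one
      _ = _ := one_mul _
  have hIb : ∀ y, ∫ θ in (0 : ℝ)..(2 * π), b y θ ^ 2 ≤ 5 / ((1 - ‖w‖) ^ 2 * D) := fun y =>
    integral_bump_Phi_le hw hD0 (ξ y / D)
  have hIS : ∫ θ in (0 : ℝ)..(2 * π), (∑ y ∈ S, b y θ) ^ 2 ≤
      ov w * (S.card * (5 / ((1 - ‖w‖) ^ 2 * D))) := by
    calc ∫ θ in (0 : ℝ)..(2 * π), (∑ y ∈ S, b y θ) ^ 2
        ≤ ∫ θ in (0 : ℝ)..(2 * π), ov w * ∑ y ∈ S, b y θ ^ 2 := by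
          refine intervalIntegral.integral_mono_on (by positivity) ?_ ?_ fun θ _ =>
            overlap hR hD hc hξ (Phi w θ)
          · exact (by fun_prop : Continuous fun θ => (∑ y ∈ S, b y θ) ^ 2).intervalIntegrable _ _
          · exact (by fun_prop : Continuous fun θ => ov w * ∑ y ∈ S, b y θ ^ 2).intervalIntegrable _ _
      _ = ov w * ∑ y ∈ S, ∫ θ in (0 : ℝ)..(2 * π), b y θ ^ 2 := by
          rw [intervalIntegral.integral_const_mul, intervalIntegral.integral_finsetSum]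
          intro y _
          exact ((hbc y).pow 2).intervalIntegrable _ _
      _ ≤ ov w * ∑ y ∈ S, 5 / ((1 - ‖w‖) ^ 2 * D) := by
          have : 0 ≤ ov w := by unfold ov; positivity
          gcongr with y _
          exact hIb y
      _ = _ := by rw [Finset.sum_const, nsmul_eq_mul]
  have hI1 : ∫ θ in (0 : ℝ)..(2 * π), ‖F θ‖ ^ 2 ≤ ov w * (S.card * (5 / ((1 - ‖w‖) ^ 2 * D))) := by
    refine le_trans ?_ hIS
    refine intervalIntegral.integral_mono_on (by positivity) ?_ ?_ fun θ _ => ?_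
    · exact (by fun_prop : Continuous fun θ => ‖F θ‖ ^ 2).intervalIntegrable _ _
    · exact (by fun_prop : Continuous fun θ => (∑ y ∈ S, b y θ) ^ 2).intervalIntegrable _ _
    · have := n1 θ
      gcongr
  have hI2 : ∫ θ in (0 : ℝ)..(2 * π), ‖F' θ - Complex.I * mid w D c * F θ‖ ^ 2 ≤
      (9 * KK w * D) ^ 2 * (ov w * (S.card * (5 / ((1 - ‖w‖) ^ 2 * D)))) := by
    have e1 : ∫ θ in (0 : ℝ)..(2 * π), ‖F' θ - Complex.I * mid w D c * F θ‖ ^ 2 ≤
        ∫ θ in (0 : ℝ)..(2 * π), (9 * KK w * D) ^ 2 * (∑ y ∈ S, b y θ) ^ 2 := by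
      refine intervalIntegral.integral_mono_on (by positivity) ?_ ?_ fun θ _ => ?_
      · exact (by fun_prop : Continuous fun θ =>
          ‖F' θ - Complex.I * mid w D c * F θ‖ ^ 2).intervalIntegrable _ _
      · exact (by fun_prop : Continuous fun θ =>
          (9 * KK w * D) ^ 2 * (∑ y ∈ S, b y θ) ^ 2).intervalIntegrable _ _
      · rw [← mul_pow]
        have := n2 θ
        gcongr
    rw [intervalIntegral.integral_const_mul] at e1
    exact e1.trans (by gcongr)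
  have hw0 : 0 < 1 - ‖w‖ := by linarith
  obtain ⟨s1, s2⟩ := l1_bound hder hF'c hper (mid w D c) (D := D)
    (E := (1 + 81 * KK w ^ 2) * ov w / (1 - ‖w‖) ^ 2 * S.card / D) hD1 (by
      set X := ov w * (S.card * (5 / ((1 - ‖w‖) ^ 2 * D))) with hX
      have hov : 0 ≤ ov w := by unfold ov; positivity
      have hX0 : 0 ≤ X := by positivity
      have hpi : (2 * π)⁻¹ * 5 ≤ 1 := by
        rw [inv_mul_le_iff₀ (by positivity)]
        linarith [pi_gt_three]
      have g1 : (2 * π)⁻¹ * (∫ θ in (0 : ℝ)..(2 * π), ‖F θ‖ ^ 2) ≤ (2 * π)⁻¹ * X := by gcongr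
      have g2 : (2 * π)⁻¹ * (∫ θ in (0 : ℝ)..(2 * π), ‖F' θ - Complex.I * mid w D c * F θ‖ ^ 2) /
          (D : ℝ) ^ 2 ≤ (2 * π)⁻¹ * (81 * KK w ^ 2 * X) := by
        rw [div_le_iff₀ (by positivity)]
        calc (2 * π)⁻¹ * (∫ θ in (0 : ℝ)..(2 * π), ‖F' θ - Complex.I * mid w D c * F θ‖ ^ 2)
            ≤ (2 * π)⁻¹ * ((9 * KK w * D) ^ 2 * X) := by gcongr
          _ = _ := by ring
      have g3 : (2 * π)⁻¹ * X + (2 * π)⁻¹ * (81 * KK w ^ 2 * X) =
          ((2 * π)⁻¹ * 5) * ((1 + 81 * KK w ^ 2) * ov w / (1 - ‖w‖) ^ 2 * S.card / D) := by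
        rw [hX]
        field_simp
      have g4 : 0 ≤ (1 + 81 * KK w ^ 2) * ov w / (1 - ‖w‖) ^ 2 * S.card / D := by positivity
      calc _ ≤ (2 * π)⁻¹ * X + (2 * π)⁻¹ * (81 * KK w ^ 2 * X) := add_le_add g1 g2
        _ = _ := g3
        _ ≤ 1 * _ := mul_le_mul_of_nonneg_right hpi g4
        _ = _ := one_mul _)
  refine ⟨s1, s2.trans (Real.sqrt_le_sqrt (le_of_eq ?_))⟩
  unfold C1
  field_simp

/-- The set of cells. -/
noncomputable def cells (w : ℂ) (ξ : ℕ → ℝ) (S : Finset ℕ) : Finset ℤ :=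
  S.image fun y => cell w y (ξ y)

/-- The estimate for a family of packets. -/
theorem total_bound {w : ℂ} (hw : ‖w‖ < 1) {D : ℕ} {R : ℝ} (hR : 1 ≤ R) (hD : R ^ 2 ≤ D)
    {ξ : ℕ → ℝ} {S : Finset ℕ} (hξ : ∀ y ∈ S, |ξ y| ≤ R) (hy : ∀ y ∈ S, (y : ℝ) ≤ R) {ε : ℕ → ℂ}
    (hε : ∀ y, ‖ε y‖ ≤ 1) :
    Summable (fun m => ‖fc (fun θ => pksum D ξ ε S (Phi w θ)) m‖) ∧
      ∑' m, ‖fc (fun θ => pksum D ξ ε S (Phi w θ)) m‖ ≤ √(C1 w * ((cells w ξ S).card * S.card)) := by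
  classical
  set T : ℤ → Finset ℕ := fun c => S.filter fun y => cell w y (ξ y) = c with hT
  have hPc := continuous_Phi hw
  have hcb : ∀ c, Summable (fun m => ‖fc (fun θ => pksum D ξ ε (T c) (Phi w θ)) m‖) ∧
      ∑' m, ‖fc (fun θ => pksum D ξ ε (T c) (Phi w θ)) m‖ ≤ √(C1 w * (T c).card) := fun c =>
    cell_bound hw hR hD (c := c) (fun y hyT => (Finset.mem_filter.mp hyT).2)
      (fun y hyT => hξ y (Finset.mem_filter.mp hyT).1)
      (fun y hyT => hy y (Finset.mem_filter.mp hyT).1) hε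
  have hmap : ∀ y ∈ S, cell w y (ξ y) ∈ cells w ξ S := fun y hyS =>
    Finset.mem_image_of_mem _ hyS
  have hsplit : ∀ ζ, pksum D ξ ε S ζ = ∑ c ∈ cells w ξ S, pksum D ξ ε (T c) ζ := by
    intro ζ
    unfold pksum
    rw [Finset.sum_fiberwise_of_maps_to hmap]
  have hfc : ∀ m, fc (fun θ => pksum D ξ ε S (Phi w θ)) m =
      ∑ c ∈ cells w ξ S, fc (fun θ => pksum D ξ ε (T c) (Phi w θ)) m := by
    intro m
    rw [← fc_sum (u := fun c θ => pksum D ξ ε (T c) (Phi w θ)) _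
      (fun c => (continuous_pksum D ξ ε (T c)).comp hPc)]
    congr 1
    funext θ
    exact hsplit _
  have hle : ∀ m, ‖fc (fun θ => pksum D ξ ε S (Phi w θ)) m‖ ≤
      ∑ c ∈ cells w ξ S, ‖fc (fun θ => pksum D ξ ε (T c) (Phi w θ)) m‖ := by
    intro m
    rw [hfc m]
    exact norm_sum_le _ _
  have hsum : Summable fun m => ∑ c ∈ cells w ξ S, ‖fc (fun θ => pksum D ξ ε (T c) (Phi w θ)) m‖ :=
    summable_sum fun c _ => (hcb c).1
  have hS := Summable.of_nonneg_of_le (fun m => norm_nonneg _) hle hsum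
  refine ⟨hS, ?_⟩
  refine (hS.tsum_le_tsum hle hsum).trans ?_
  rw [Summable.tsum_finsetSum fun c _ => (hcb c).1]
  refine (Finset.sum_le_sum fun c _ => (hcb c).2).trans ?_
  refine Real.le_sqrt_of_sq_le ?_
  refine (sq_sum_le_card_mul_sum_sq (s := cells w ξ S) (f := fun c => √(C1 w * (T c).card))).trans ?_
  have hC := C1_pos hw
  have e1 : ∀ c, √(C1 w * (T c).card) ^ 2 = C1 w * (T c).card := fun c =>
    Real.sq_sqrt (by positivity)
  simp only [e1]
  rw [← Finset.mul_sum]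
  have e2 : ∑ c ∈ cells w ξ S, ((T c).card : ℝ) = S.card := by
    rw [← Nat.cast_sum]
    congr 1
    exact (Finset.card_eq_sum_card_fiberwise hmap).symm
  rw [e2]
  apply le_of_eq
  ring

end Pool.Agent.J4H53.MS
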