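import Mathlib

/-!
# Fourier coefficients on the circle and the `ℓ¹` estimate
-/

open Real MeasureTheory Set Filter
open scoped Topology

namespace Pool.Agent.J4H53.MS

/-- The `m`-th Fourier coefficient of a function of the angle. -/
noncomputable def fc (u : ℝ → ℂ) (m : ℤ) : ℂ :=
  (2 * π : ℂ)⁻¹ * ∫ θ in (0 : ℝ)..(2 * π), u θ * Complex.exp (-(m * θ * Complex.I))

theorem fc_eq (u : ℝ → ℂ) (m : ℤ) : fc u m = fourierCoeffOn Real.two_pi_pos u m := by
  rw [fourierCoeffOn_eq_integral, fc]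
  have h : ∀ x : ℝ, fourier (-m) (x : AddCircle (2 * π - 0)) = Complex.exp (-(m * x * Complex.I)) := by
    intro x
    rw [fourier_coe_apply]
    congr 1
    have : (π : ℂ) ≠ 0 := by exact_mod_cast Real.pi_ne_zero
    push_cast
    field_simp
    ring
  simp only [h, smul_eq_mul, sub_zero, one_div]
  rw [Complex.real_smul]
  push_cast
  congr 1
  refine intervalIntegral.integral_congr fun x _ => ?_
  ring

theorem fc_add {u v : ℝ → ℂ} (hu : Continuous u) (hv : Continuous v) (m : ℤ) :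
    fc (fun θ => u θ + v θ) m = fc u m + fc v m := by
  unfold fc
  rw [← mul_add, ← intervalIntegral.integral_add]
  · simp only [add_mul]
  · exact (by fun_prop : Continuous fun θ : ℝ => u θ * Complex.exp (-(m * θ * Complex.I))).intervalIntegrable _ _
  · exact (by fun_prop : Continuous fun θ : ℝ => v θ * Complex.exp (-(m * θ * Complex.I))).intervalIntegrable _ _

theorem fc_const_mul (c : ℂ) (u : ℝ → ℂ) (m : ℤ) :
    fc (fun θ => c * u θ) m = c * fc u m := by
  unfold fc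
  simp only [mul_assoc, intervalIntegral.integral_const_mul]
  ring

theorem fc_sum {ι : Type*} (s : Finset ι) {u : ι → ℝ → ℂ} (hu : ∀ i, Continuous (u i)) (m : ℤ) :
    fc (fun θ => ∑ i ∈ s, u i θ) m = ∑ i ∈ s, fc (u i) m := by
  unfold fc
  rw [← Finset.mul_sum, ← intervalIntegral.integral_finsetSum]
  · simp only [Finset.sum_mul]
  · intro i _
    have := hu i
    exact (by fun_prop : Continuous fun θ : ℝ => u i θ * Complex.exp (-(m * θ * Complex.I))).intervalIntegrable _ _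

/-- Parseval. -/
theorem parseval {u : ℝ → ℂ} (hu : Continuous u) :
    HasSum (fun m : ℤ => ‖fc u m‖ ^ 2) ((2 * π)⁻¹ * ∫ θ in (0 : ℝ)..(2 * π), ‖u θ‖ ^ 2) := by
  have h := hasSum_sq_fourierCoeffOn (f := u) Real.two_pi_pos ?_
  · simp only [← fc_eq, sub_zero, smul_eq_mul] at h
    exact h
  · obtain ⟨C, hC⟩ := (isCompact_Icc (a := (0 : ℝ)) (b := 2 * π)).exists_bound_of_continuousOn hu.continuousOn
    refine MemLp.of_bound hu.aestronglyMeasurable C ?_
    rw [ae_restrict_iff' measurableSet_Ioc]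
    exact Eventually.of_forall fun x hx => hC x (Ioc_subset_Icc_self hx)

/-- Integration by parts. -/
theorem fc_deriv {u u' : ℝ → ℂ} (h : ∀ θ, HasDerivAt u (u' θ) θ) (hc : Continuous u')
    (hp : u (2 * π) = u 0) (m : ℤ) : fc u' m = Complex.I * m * fc u m := by
  have hu : Continuous u := continuous_iff_continuousAt.mpr fun θ => (h θ).continuousAt
  have h1 : ∀ θ : ℝ, HasDerivAt (fun θ : ℝ => u θ * Complex.exp (-(m * θ * Complex.I)))
      (u' θ * Complex.exp (-(m * θ * Complex.I)) +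
        u θ * (Complex.exp (-(m * θ * Complex.I)) * (-(m * Complex.I)))) θ := by
    intro θ
    refine (h θ).mul ?_
    have h2 : HasDerivAt (fun θ : ℝ => -((m : ℂ) * (θ : ℂ) * Complex.I)) (-(m * Complex.I)) θ := by
      have := (((hasDerivAt_id θ).ofReal_comp.const_mul (m : ℂ)).mul_const Complex.I).fun_neg
      simpa using this
    exact h2.cexp
  have h3 := intervalIntegral.integral_eq_sub_of_hasDerivAt (fun θ _ => h1 θ)
    ((by fun_prop : Continuous fun θ : ℝ => (u' θ * Complex.exp (-(m * θ * Complex.I)) +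
        u θ * (Complex.exp (-(m * θ * Complex.I)) * (-(m * Complex.I))))).intervalIntegrable 0 (2 * π))
  rw [intervalIntegral.integral_add
    ((by fun_prop : Continuous fun θ : ℝ => u' θ * Complex.exp (-(m * θ * Complex.I))).intervalIntegrable _ _)
    ((by fun_prop : Continuous fun θ : ℝ => u θ * (Complex.exp (-(m * θ * Complex.I)) *
      (-(m * Complex.I)))).intervalIntegrable _ _)] at h3
  have h4 : ∀ θ : ℝ, u θ * (Complex.exp (-(m * θ * Complex.I)) * (-(m * Complex.I))) =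
      (-(m * Complex.I)) * (u θ * Complex.exp (-(m * θ * Complex.I))) := fun θ => by ring
  simp only [h4, intervalIntegral.integral_const_mul] at h3
  have h5 : Complex.exp (-((m : ℂ) * ((2 * π : ℝ) : ℂ) * Complex.I)) = 1 := by
    have := Complex.exp_int_mul_two_pi_mul_I (-m)
    rw [← this]
    congr 1
    push_cast
    ring
  rw [h5, hp] at h3
  simp only [Complex.ofReal_zero, mul_zero, zero_mul, neg_zero, Complex.exp_zero, sub_self] at h3
  unfold fc
  linear_combination (2 * π : ℂ)⁻¹ * h3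

theorem tele_bound (D : ℝ) (hD : 1 ≤ D) (n : ℕ) :
    ∑ k ∈ Finset.range n, 1 / (1 + (((k : ℝ) + 1) / D) ^ 2) ≤ 2 * D * (1 - 1 / (1 + n / D)) := by
  have hD0 : 0 < D := by linarith
  induction n with
  | zero => simp
  | succ n ih =>
    rw [Finset.sum_range_succ]
    have h : 1 / (1 + (((n : ℝ) + 1) / D) ^ 2) ≤
        2 * D * (1 / (1 + n / D) - 1 / (1 + (n + 1) / D)) := by
      have e1 : (1 : ℝ) / (1 + n / D) - 1 / (1 + (n + 1) / D) =
          (1 / D) / ((1 + n / D) * (1 + (n + 1) / D)) := by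
        field_simp
        ring
      rw [e1]
      have hb : 0 ≤ ((n : ℝ) + 1) / D := by positivity
      set b := ((n : ℝ) + 1) / D
      have ha : 0 ≤ (n : ℝ) / D := by positivity
      have hab : (n : ℝ) / D ≤ b := by
        apply div_le_div_of_nonneg_right _ hD0.le
        linarith
      set a := (n : ℝ) / D
      have e2 : 2 * D * (1 / D / ((1 + a) * (1 + b))) = 2 / ((1 + a) * (1 + b)) := by
        field_simp
      rw [e2, div_le_div_iff₀ (by positivity) (by positivity)]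
      nlinarith [sq_nonneg (1 - b)]
    push_cast
    linarith

/-- Sum of the weights. -/
theorem weight_sum (D : ℝ) (hD : 1 ≤ D) :
    Summable (fun m : ℤ => 1 / (1 + ((m : ℝ) / D) ^ 2)) ∧
      ∑' m : ℤ, 1 / (1 + ((m : ℝ) / D) ^ 2) ≤ 5 * D := by
  have hD0 : 0 < D := by linarith
  have hb : ∀ n : ℕ, ∑ k ∈ Finset.range n, 1 / (1 + (((k : ℝ) + 1) / D) ^ 2) ≤ 2 * D := by
    intro n
    refine (tele_bound D hD n).trans ?_
    have : 0 ≤ 1 / (1 + (n : ℝ) / D) := by positivity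
    nlinarith
  have s1 : Summable (fun k : ℕ => 1 / (1 + (((k : ℝ) + 1) / D) ^ 2)) :=
    summable_of_sum_range_le (fun _ => by positivity) hb
  have t1 : ∑' k : ℕ, 1 / (1 + (((k : ℝ) + 1) / D) ^ 2) ≤ 2 * D :=
    Real.tsum_le_of_sum_range_le (fun _ => by positivity) hb
  have s2 : Summable (fun k : ℕ => 1 / (1 + (((k : ℤ) : ℝ) / D) ^ 2)) := by
    rw [← summable_nat_add_iff 1]
    refine s1.congr fun k => ?_
    push_cast
    rfl
  have s3 : Summable (fun k : ℕ => 1 / (1 + (((-(k + 1 : ℤ) : ℤ) : ℝ) / D) ^ 2)) := by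
    refine s1.congr fun k => ?_
    push_cast
    rw [neg_div, neg_sq]
  refine ⟨Summable.of_nat_of_neg_add_one s2 s3, ?_⟩
  rw [tsum_of_nat_of_neg_add_one s2 s3, s2.tsum_eq_zero_add]
  have e1 : ∑' k : ℕ, 1 / (1 + ((((k + 1 : ℕ) : ℤ) : ℝ) / D) ^ 2) =
      ∑' k : ℕ, 1 / (1 + (((k : ℝ) + 1) / D) ^ 2) := by
    refine tsum_congr fun k => ?_
    push_cast
    rfl
  have e2 : ∑' k : ℕ, 1 / (1 + (((-(k + 1 : ℤ) : ℤ) : ℝ) / D) ^ 2) =
      ∑' k : ℕ, 1 / (1 + (((k : ℝ) + 1) / D) ^ 2) := by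
    refine tsum_congr fun k => ?_
    push_cast
    rw [neg_div, neg_sq]
  rw [e1, e2]
  simp only [Nat.cast_zero, Int.cast_zero, zero_div, ne_eq, OfNat.ofNat_ne_zero, not_false_eq_true,
    zero_pow, add_zero, div_one]
  linarith

/-- The `ℓ¹` norm of the Fourier coefficients is controlled by a modulated Sobolev norm. -/
theorem l1_bound {F F' : ℝ → ℂ} (h : ∀ θ, HasDerivAt F (F' θ) θ) (hc : Continuous F')
    (hp : F (2 * π) = F 0) (μ : ℤ) {D E : ℝ} (hD : 1 ≤ D)
    (hE : (2 * π)⁻¹ * (∫ θ in (0 : ℝ)..(2 * π), ‖F θ‖ ^ 2) +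
      (2 * π)⁻¹ * (∫ θ in (0 : ℝ)..(2 * π), ‖F' θ - Complex.I * μ * F θ‖ ^ 2) / D ^ 2 ≤ E) :
    Summable (fun m => ‖fc F m‖) ∧ ∑' m, ‖fc F m‖ ≤ √(5 * D * E) := by
  have hF : Continuous F := continuous_iff_continuousAt.mpr fun θ => (h θ).continuousAt
  have hD0 : 0 < D := by linarith
  set v : ℝ → ℂ := fun θ => F' θ - Complex.I * μ * F θ with hv
  have hvc : Continuous v := by fun_prop
  have hvm : ∀ m : ℤ, ‖fc v m‖ ^ 2 = ((m : ℝ) - μ) ^ 2 * ‖fc F m‖ ^ 2 := by
    intro m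
    have e1 : fc v m = Complex.I * ((m : ℂ) - μ) * fc F m := by
      have e2 : v = fun θ => F' θ + (-(Complex.I * μ)) * F θ := by
        funext θ; rw [hv]; ring
      rw [e2, fc_add hc (by fun_prop), fc_const_mul, fc_deriv h hc hp]
      ring
    rw [e1, norm_mul, norm_mul, Complex.norm_I, one_mul, mul_pow]
    congr 1
    rw [← Complex.ofReal_intCast, ← Complex.ofReal_intCast, ← Complex.ofReal_sub, Complex.norm_real,
      Real.norm_eq_abs, sq_abs]
  have p1 := parseval hF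
  have p2 := parseval hvc
  have p3 : HasSum (fun m : ℤ => (1 + (((m - μ : ℤ) : ℝ) / D) ^ 2) * ‖fc F m‖ ^ 2)
      ((2 * π)⁻¹ * (∫ θ in (0 : ℝ)..(2 * π), ‖F θ‖ ^ 2) +
      (2 * π)⁻¹ * (∫ θ in (0 : ℝ)..(2 * π), ‖v θ‖ ^ 2) / D ^ 2) := by
    convert p1.add (p2.div_const (D ^ 2)) using 1
    funext m
    rw [hvm m]
    push_cast
    ring
  obtain ⟨w1, w2⟩ := weight_sum D hD
  have w3 : Summable (fun m : ℤ => 1 / (1 + (((m - μ : ℤ) : ℝ) / D) ^ 2)) :=
    (Equiv.subRight μ).summable_iff.mpr w1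
  have w4 : ∑' m : ℤ, 1 / (1 + (((m - μ : ℤ) : ℝ) / D) ^ 2) ≤ 5 * D := by
    have := (Equiv.subRight μ).tsum_eq (fun m : ℤ => 1 / (1 + ((m : ℝ) / D) ^ 2))
    simp only [Equiv.subRight_apply] at this
    rw [this]
    exact w2
  have key : ∀ T : Finset ℤ, ∑ m ∈ T, ‖fc F m‖ ≤ √(5 * D * E) := by
    intro T
    refine Real.le_sqrt_of_sq_le ?_
    have c1 := Finset.sum_mul_sq_le_sq_mul_sq T
      (fun m : ℤ => √(1 / (1 + (((m - μ : ℤ) : ℝ) / D) ^ 2)))
      (fun m : ℤ => √((1 + (((m - μ : ℤ) : ℝ) / D) ^ 2) * ‖fc F m‖ ^ 2))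
    have c2 : ∀ m : ℤ, √(1 / (1 + (((m - μ : ℤ) : ℝ) / D) ^ 2)) *
        √((1 + (((m - μ : ℤ) : ℝ) / D) ^ 2) * ‖fc F m‖ ^ 2) = ‖fc F m‖ := by
      intro m
      rw [← Real.sqrt_mul (by positivity), ← mul_assoc, one_div_mul_cancel (by positivity), one_mul,
        Real.sqrt_sq (norm_nonneg _)]
    have c3 : ∀ m : ℤ, √(1 / (1 + (((m - μ : ℤ) : ℝ) / D) ^ 2)) ^ 2 =
        1 / (1 + (((m - μ : ℤ) : ℝ) / D) ^ 2) := fun m => Real.sq_sqrt (by positivity)
    have c4 : ∀ m : ℤ, √((1 + (((m - μ : ℤ) : ℝ) / D) ^ 2) * ‖fc F m‖ ^ 2) ^ 2 =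
        (1 + (((m - μ : ℤ) : ℝ) / D) ^ 2) * ‖fc F m‖ ^ 2 := fun m => Real.sq_sqrt (by positivity)
    simp only [c2, c3, c4] at c1
    have d1 : ∑ m ∈ T, 1 / (1 + (((m - μ : ℤ) : ℝ) / D) ^ 2) ≤ 5 * D :=
      (w3.sum_le_tsum T fun m _ => by positivity).trans w4
    have d2 : ∑ m ∈ T, (1 + (((m - μ : ℤ) : ℝ) / D) ^ 2) * ‖fc F m‖ ^ 2 ≤ E :=
      (sum_le_hasSum T (fun m _ => by positivity) p3).trans hE
    refine c1.trans (mul_le_mul d1 d2 (Finset.sum_nonneg fun m _ => by positivity) (by positivity))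
  refine ⟨summable_of_sum_le (fun _ => norm_nonneg _) key, ?_⟩
  exact Real.tsum_le_of_sum_le (fun _ => norm_nonneg _) key

end Pool.Agent.J4H53.MS
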