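import Pool.Agent.J4H53.MS.Cells

/-!
# The digit set: few cells in every direction but one
-/

open Real MeasureTheory Set Filter
open scoped Topology ComplexConjugate

namespace Pool.Agent.J4H53.MS

/-- The `i`-th digit in base `B`. -/
def dig (B i y : ℕ) : ℕ := y / B ^ i % B

/-- The position attached to the label `y`. -/
noncomputable def xi (B : ℕ) (σ : ℕ → ℝ) (k y : ℕ) : ℝ :=
  -∑ i ∈ Finset.range k, (dig B i y : ℝ) * (B : ℝ) ^ i * σ i

theorem dig_sum (B k y : ℕ) : y % B ^ k = ∑ i ∈ Finset.range k, dig B i y * B ^ i := by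
  induction k with
  | zero => simp [Nat.mod_one]
  | succ k ih =>
    rw [Finset.sum_range_succ, ← ih, Nat.mod_pow_succ, dig]
    ring

theorem dig_sum_real (B k y : ℕ) :
    ((y % B ^ k : ℕ) : ℝ) = ∑ i ∈ Finset.range k, (dig B i y : ℝ) * (B : ℝ) ^ i := by
  rw [dig_sum]
  push_cast
  rfl

theorem abs_xi_le {B : ℕ} (hB : 0 < B) {σ : ℕ → ℝ} {k : ℕ} {N : ℝ} (hN : 0 ≤ N)
    (hσ : ∀ i < k, |σ i| ≤ N) (y : ℕ) : |xi B σ k y| ≤ N * (B : ℝ) ^ k := by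
  unfold xi
  rw [abs_neg]
  calc |∑ i ∈ Finset.range k, (dig B i y : ℝ) * (B : ℝ) ^ i * σ i|
      ≤ ∑ i ∈ Finset.range k, |(dig B i y : ℝ) * (B : ℝ) ^ i * σ i| := Finset.abs_sum_le_sum_abs _ _
    _ ≤ ∑ i ∈ Finset.range k, (dig B i y : ℝ) * (B : ℝ) ^ i * N := by
        refine Finset.sum_le_sum fun i hi => ?_
        rw [abs_mul, abs_of_nonneg (by positivity : (0 : ℝ) ≤ (dig B i y : ℝ) * (B : ℝ) ^ i)]
        exact mul_le_mul_of_nonneg_left (hσ i (Finset.mem_range.mp hi)) (by positivity)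
    _ = N * ((y % B ^ k : ℕ) : ℝ) := by rw [← Finset.sum_mul, ← dig_sum_real]; ring
    _ ≤ N * (B : ℝ) ^ k := by
        have : ((y % B ^ k : ℕ) : ℝ) ≤ ((B ^ k : ℕ) : ℝ) := by
          exact_mod_cast (Nat.mod_lt y (pow_pos hB k)).le
        push_cast at this
        gcongr

theorem proj_eq {B k y : ℕ} (hy : y < B ^ k) (σ : ℕ → ℝ) (τ : ℝ) :
    (y : ℝ) + τ * xi B σ k y =
      ∑ i ∈ Finset.range k, (dig B i y : ℝ) * (B : ℝ) ^ i * (1 - τ * σ i) := by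
  have h1 : (y : ℝ) = ∑ i ∈ Finset.range k, (dig B i y : ℝ) * (B : ℝ) ^ i := by
    rw [← dig_sum_real, Nat.mod_eq_of_lt hy]
  unfold xi
  rw [mul_neg, Finset.mul_sum, ← sub_eq_add_neg]
  nth_rewrite 1 [h1]
  rw [← Finset.sum_sub_distrib]
  refine Finset.sum_congr rfl fun i _ => ?_
  ring

/-- The contribution of the high digits. -/
noncomputable def high (B : ℕ) (σ : ℕ → ℝ) (τ : ℝ) (k j u : ℕ) : ℝ :=
  ∑ i ∈ Finset.Ico (j + 1) k, (dig B (i - (j + 1)) u : ℝ) * (B : ℝ) ^ i * (1 - τ * σ i)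

theorem dig_high {B i j y : ℕ} (h : j + 1 ≤ i) : dig B i y = dig B (i - (j + 1)) (y / B ^ (j + 1)) := by
  unfold dig
  rw [Nat.div_div_eq_div_mul, ← pow_add]
  congr 3
  omega

theorem proj_near {B : ℕ} (hB : 0 < B) {k j y : ℕ} (hj : j < k) (hy : y < B ^ k) {σ : ℕ → ℝ}
    {N τ : ℝ} (hN : 0 ≤ N) (hσ : ∀ i < k, |σ i| ≤ N) (hτ : |1 - τ * σ j| ≤ 1 / B) :
    |((y : ℝ) + τ * xi B σ k y) - high B σ τ k j (y / B ^ (j + 1))| ≤
      (B : ℝ) ^ j * (2 + |τ| * N) := by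
  have hB' : (0 : ℝ) < B := by exact_mod_cast hB
  have h1 : ∑ i ∈ Finset.range k, (dig B i y : ℝ) * (B : ℝ) ^ i * (1 - τ * σ i) =
      (∑ i ∈ Finset.range j, (dig B i y : ℝ) * (B : ℝ) ^ i * (1 - τ * σ i)) +
      (dig B j y : ℝ) * (B : ℝ) ^ j * (1 - τ * σ j) + high B σ τ k j (y / B ^ (j + 1)) := by
    rw [← Finset.sum_range_succ, ← Finset.sum_range_add_sum_Ico _ (by omega : j + 1 ≤ k)]
    congr 1
    unfold high
    refine Finset.sum_congr rfl fun i hi => ?_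
    rw [← dig_high (Finset.mem_Ico.mp hi).1]
  rw [proj_eq hy, h1, add_sub_cancel_right]
  have h2 : |∑ i ∈ Finset.range j, (dig B i y : ℝ) * (B : ℝ) ^ i * (1 - τ * σ i)| ≤
      (B : ℝ) ^ j * (1 + |τ| * N) := by
    calc |∑ i ∈ Finset.range j, (dig B i y : ℝ) * (B : ℝ) ^ i * (1 - τ * σ i)|
        ≤ ∑ i ∈ Finset.range j, |(dig B i y : ℝ) * (B : ℝ) ^ i * (1 - τ * σ i)| :=
          Finset.abs_sum_le_sum_abs _ _
      _ ≤ ∑ i ∈ Finset.range j, (dig B i y : ℝ) * (B : ℝ) ^ i * (1 + |τ| * N) := by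
          refine Finset.sum_le_sum fun i hi => ?_
          rw [abs_mul, abs_of_nonneg (by positivity : (0 : ℝ) ≤ (dig B i y : ℝ) * (B : ℝ) ^ i)]
          refine mul_le_mul_of_nonneg_left ?_ (by positivity)
          refine (abs_sub _ _).trans ?_
          rw [abs_one, abs_mul]
          have := hσ i ((Finset.mem_range.mp hi).trans hj)
          gcongr
      _ = ((y % B ^ j : ℕ) : ℝ) * (1 + |τ| * N) := by rw [← Finset.sum_mul, ← dig_sum_real]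
      _ ≤ (B : ℝ) ^ j * (1 + |τ| * N) := by
          have : ((y % B ^ j : ℕ) : ℝ) ≤ ((B ^ j : ℕ) : ℝ) := by
            exact_mod_cast (Nat.mod_lt y (pow_pos hB j)).le
          push_cast at this
          gcongr
  have h3 : |(dig B j y : ℝ) * (B : ℝ) ^ j * (1 - τ * σ j)| ≤ (B : ℝ) ^ j := by
    rw [abs_mul, abs_of_nonneg (by positivity : (0 : ℝ) ≤ (dig B j y : ℝ) * (B : ℝ) ^ j)]
    have h4 : (dig B j y : ℝ) ≤ B := by
      unfold dig
      exact_mod_cast (Nat.mod_lt _ hB).le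
    calc (dig B j y : ℝ) * (B : ℝ) ^ j * |1 - τ * σ j| ≤ (B : ℝ) * (B : ℝ) ^ j * (1 / B) := by gcongr
      _ = (B : ℝ) ^ j := by field_simp
  refine (abs_add_le _ _).trans ?_
  have : (B : ℝ) ^ j * (2 + |τ| * N) = (B : ℝ) ^ j * (1 + |τ| * N) + (B : ℝ) ^ j := by ring
  linarith

theorem card_cells {w : ℂ} {B : ℕ} (hB : 0 < B) {k j : ℕ} (hj : j < k) {σ : ℕ → ℝ}
    {N : ℝ} (hN : 0 ≤ N) (hσ : ∀ i < k, |σ i| ≤ N) (hτ : |1 - tau w * σ j| ≤ 1 / B) :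
    ((cells w (xi B σ k) (Finset.range (B ^ k))).card : ℝ) * B ≤
      (B : ℝ) ^ k * (6 + 2 * |tau w| * N) := by
  classical
  have hB' : (0 : ℝ) < B := by exact_mod_cast hB
  have hB1 : (1 : ℝ) ≤ B := by exact_mod_cast hB
  set τ := tau w with hτd
  set L : ℝ := (B : ℝ) ^ j * (2 + |τ| * N) with hL
  have hL0 : 0 ≤ L := by positivity
  set V : ℕ → ℝ := high B σ τ k j with hV
  have hsub : cells w (xi B σ k) (Finset.range (B ^ k)) ⊆
      (Finset.range (B ^ (k - 1 - j))).biUnion fun u => Finset.Icc ⌊V u - L⌋ ⌊V u + L⌋ := by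
    intro c hc
    unfold cells at hc
    rw [Finset.mem_image] at hc
    obtain ⟨y, hy, rfl⟩ := hc
    rw [Finset.mem_range] at hy
    rw [Finset.mem_biUnion]
    refine ⟨y / B ^ (j + 1), ?_, ?_⟩
    · rw [Finset.mem_range]
      apply Nat.div_lt_of_lt_mul
      rw [← pow_add]
      have : j + 1 + (k - 1 - j) = k := by omega
      rw [this]
      exact hy
    · have h1 := abs_le.mp (proj_near hB hj hy hN hσ hτ)
      rw [Finset.mem_Icc]
      unfold cell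
      constructor
      · apply Int.floor_le_floor
        linarith [h1.1]
      · apply Int.floor_le_floor
        linarith [h1.2]
  have hcard : ((cells w (xi B σ k) (Finset.range (B ^ k))).card : ℝ) ≤
      (B : ℝ) ^ (k - 1 - j) * (2 * L + 2) := by
    have h1 := (Finset.card_le_card hsub).trans Finset.card_biUnion_le
    have h2 : ((cells w (xi B σ k) (Finset.range (B ^ k))).card : ℝ) ≤
        ∑ u ∈ Finset.range (B ^ (k - 1 - j)), ((Finset.Icc ⌊V u - L⌋ ⌊V u + L⌋).card : ℝ) := by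
      exact_mod_cast h1
    refine h2.trans ?_
    have h3 : ∀ u, ((Finset.Icc ⌊V u - L⌋ ⌊V u + L⌋).card : ℝ) ≤ 2 * L + 2 := by
      intro u
      rw [Int.card_Icc]
      have h4 : ⌊V u - L⌋ ≤ ⌊V u + L⌋ := Int.floor_le_floor (by linarith)
      have h5 : ((⌊V u + L⌋ + 1 - ⌊V u - L⌋).toNat : ℝ) = ((⌊V u + L⌋ + 1 - ⌊V u - L⌋ : ℤ) : ℝ) := by
        have : (((⌊V u + L⌋ + 1 - ⌊V u - L⌋).toNat : ℤ)) = ⌊V u + L⌋ + 1 - ⌊V u - L⌋ :=
          Int.toNat_of_nonneg (by omega)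
        exact_mod_cast this
      rw [h5]
      push_cast
      have := Int.floor_le (V u + L)
      have := Int.lt_floor_add_one (V u - L)
      linarith
    refine (Finset.sum_le_sum fun u _ => h3 u).trans ?_
    rw [Finset.sum_const, Finset.card_range, nsmul_eq_mul]
    push_cast
    exact le_rfl
  have hk : (B : ℝ) ^ k = (B : ℝ) ^ (k - 1 - j) * (B : ℝ) ^ j * B := by
    rw [← pow_add, ← pow_succ]
    congr 1
    omega
  have hBj : (1 : ℝ) ≤ (B : ℝ) ^ j := one_le_pow₀ hB1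
  calc ((cells w (xi B σ k) (Finset.range (B ^ k))).card : ℝ) * B
      ≤ (B : ℝ) ^ (k - 1 - j) * (2 * L + 2) * B := by gcongr
    _ ≤ (B : ℝ) ^ (k - 1 - j) * ((B : ℝ) ^ j * (6 + 2 * |τ| * N)) * B := by
        have : 2 * L + 2 ≤ (B : ℝ) ^ j * (6 + 2 * |τ| * N) := by
          rw [hL]
          nlinarith
        gcongr
    _ = _ := by rw [hk]; ring

/-- The grid of slopes. -/
noncomputable def sg (N j : ℕ) : ℝ := -(N : ℝ) + j / (N : ℝ) ^ 3

theorem abs_sg_le {N : ℕ} (hN : 0 < N) {j : ℕ} (hj : j < 2 * N ^ 4 + 1) : |sg N j| ≤ N := by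
  have hN' : (0 : ℝ) < N := by exact_mod_cast hN
  unfold sg
  have h1 : (j : ℝ) ≤ 2 * (N : ℝ) ^ 4 := by exact_mod_cast (by omega : j ≤ 2 * N ^ 4)
  have h2 : (j : ℝ) / (N : ℝ) ^ 3 ≤ 2 * N := by
    rw [div_le_iff₀ (by positivity)]
    linarith [(by ring : 2 * (N : ℝ) * (N : ℝ) ^ 3 = 2 * (N : ℝ) ^ 4)]
  have h3 : (0 : ℝ) ≤ (j : ℝ) / (N : ℝ) ^ 3 := by positivity
  rw [abs_le]
  constructor <;> linarith

theorem exists_slope {N : ℕ} (hN : 0 < N) {τ : ℝ} (h0 : τ ≠ 0) (h1 : |τ| ≤ N) (h2 : 1 / |τ| ≤ N) :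
    ∃ j < 2 * N ^ 4 + 1, |1 - τ * sg N j| ≤ 1 / ((N ^ 2 : ℕ) : ℝ) := by
  have hN' : (0 : ℝ) < N := by exact_mod_cast hN
  have ha : 0 < |τ| := abs_pos.mpr h0
  have h3 : |1 / τ| ≤ N := by rw [abs_div, abs_one]; exact h2
  have h4 := abs_le.mp h3
  set X : ℝ := (1 / τ + N) * (N : ℝ) ^ 3 with hX
  have hX0 : 0 ≤ X := by
    have : 0 ≤ 1 / τ + N := by linarith
    positivity
  have hX1 : X ≤ 2 * (N : ℝ) ^ 4 := by
    have : 1 / τ + N ≤ 2 * N := by linarith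
    calc X ≤ (2 * N) * (N : ℝ) ^ 3 := by rw [hX]; gcongr
      _ = _ := by ring
  refine ⟨⌊X⌋₊, ?_, ?_⟩
  · have : (⌊X⌋₊ : ℝ) ≤ 2 * (N : ℝ) ^ 4 := (Nat.floor_le hX0).trans hX1
    have h5 : ⌊X⌋₊ ≤ 2 * N ^ 4 := by exact_mod_cast this
    omega
  · have h5 : |1 / τ - sg N ⌊X⌋₊| ≤ 1 / (N : ℝ) ^ 3 := by
      have e1 : 1 / τ - sg N ⌊X⌋₊ = (X - ⌊X⌋₊) / (N : ℝ) ^ 3 := by
        rw [sg, hX]
        field_simp
        ring
      rw [e1, abs_div, abs_of_pos (by positivity : (0 : ℝ) < (N : ℝ) ^ 3)]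
      refine div_le_div_of_nonneg_right ?_ (by positivity)
      rw [abs_le]
      constructor
      · linarith [Nat.floor_le hX0]
      · linarith [Nat.lt_floor_add_one X]
    have h6 : 1 - τ * sg N ⌊X⌋₊ = τ * (1 / τ - sg N ⌊X⌋₊) := by
      field_simp
    rw [h6, abs_mul]
    push_cast
    calc |τ| * |1 / τ - sg N ⌊X⌋₊| ≤ N * (1 / (N : ℝ) ^ 3) := by gcongr
      _ = 1 / (N : ℝ) ^ 2 := by field_simp

end Pool.Agent.J4H53.MS
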