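import Pool.Agent.J4H53.MS.Block

/-!
# The family of blocks
-/

open Real MeasureTheory Set Filter
open scoped Topology ComplexConjugate

namespace Pool.Agent.J4H53.MS

/-- The bound of the blocks seen from `w`. -/
noncomputable def C2 (w : ℂ) : ℝ := √(C1 w * (6 + 3 * |tau w| + 1 / |tau w|))

theorem tau_ne {w : ℂ} (hw : ‖w‖ < 1) (h : w.im ≠ 0) : tau w ≠ 0 := by
  unfold tau
  have h1 : ‖1 + conj w‖ ≠ 0 := by
    have := den_ne (w := -w) (z := 1) (by simpa using hw) (by simp)
    simpa using this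
  positivity

/-- The signs extended to the natural numbers. -/
noncomputable def eps {M : ℕ} (δ : Fin M → Bool) (y : ℕ) : ℂ := if h : y < M then sgn (δ ⟨y, h⟩) else 0

theorem norm_eps_le {M : ℕ} (δ : Fin M → Bool) (y : ℕ) : ‖eps δ y‖ ≤ 1 := by
  unfold eps
  split
  · rw [norm_sgn]
  · simp

theorem exists_block {N : ℕ} (hN : 0 < N) : ∃ G : ℂ → ℂ, Continuous G ∧
    (∀ w : ℂ, ‖w‖ < 1 → w.im ≠ 0 → Summable (fun m => ‖fc (fun θ => G (Phi w θ)) m‖) ∧
      ∑' m, ‖fc (fun θ => G (Phi w θ)) m‖ ≤ C2 w) ∧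
    (∀ m : ℤ, ‖fc (fun θ => G (E θ)) m‖ ≤ 1) ∧
    ∃ T : Finset ℕ, √N / 52 ≤ ∑ n ∈ T, ‖fc (fun θ => G (E θ)) (n : ℤ)‖ := by
  classical
  set B : ℕ := N ^ 2 with hB
  have hB0 : 0 < B := by positivity
  set k : ℕ := 2 * N ^ 4 + 1 with hk
  set M : ℕ := B ^ k with hM
  have hM0 : 0 < M := by positivity
  set R : ℕ := N * M with hR
  have hR0 : 0 < R := by positivity
  set K : ℕ := R ^ 2 with hK
  have hK0 : 0 < K := by positivity
  set D : ℕ := 2 * K with hD
  set ξ : ℕ → ℝ := xi B (sg N) k with hξd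
  have hNr : (1 : ℝ) ≤ N := by exact_mod_cast hN
  have hMr : (1 : ℝ) ≤ M := by exact_mod_cast hM0
  have hRr : (1 : ℝ) ≤ R := by exact_mod_cast hR0
  have hKr : (1 : ℝ) ≤ K := by exact_mod_cast hK0
  have hDr : (D : ℝ) = 2 * K := by rw [hD]; push_cast; ring
  have hD1 : (1 : ℝ) ≤ D := by rw [hDr]; linarith
  have hRD : (R : ℝ) ^ 2 ≤ D := by
    rw [hDr, hK]
    push_cast
    nlinarith [sq_nonneg (R : ℝ)]
  have hσ : ∀ i < k, |sg N i| ≤ (N : ℝ) := fun i hi => abs_sg_le hN hi
  have hξ : ∀ y, |ξ y| ≤ (R : ℝ) := by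
    intro y
    have := abs_xi_le hB0 (N := (N : ℝ)) (by positivity) hσ y
    rw [hR, hM]
    push_cast
    exact this
  have hy : ∀ y ∈ Finset.range M, ((y : ℕ) : ℝ) ≤ (R : ℝ) := by
    intro y hy
    rw [Finset.mem_range] at hy
    have : y ≤ R := by
      rw [hR]
      nlinarith
    exact_mod_cast this
  -- choice of signs
  set nu : ℕ → ℕ := fun y => D ^ 2 + D * y with hnu
  set W : Finset (Fin M × ℕ) := Finset.univ ×ˢ Finset.range K with hW
  obtain ⟨δ, hδ⟩ := exists_signs M W
    (fun (y : Fin M) (p : Fin M × ℕ) =>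
      fc (fun θ => pkt D y (ξ y) (E θ)) ((nu (p.1 : ℕ) + p.2 : ℕ) : ℤ)) (fun p => p.1)
  have hlow : (M : ℝ) / 52 ≤ ∑ p ∈ W, ‖fc (fun θ => pkt D (p.1 : ℕ) (ξ (p.1 : ℕ)) (E θ))
      ((nu (p.1 : ℕ) + p.2 : ℕ) : ℤ)‖ := by
    have h1 : ∀ p ∈ W, 1 / (26 * (D : ℝ)) ≤ ‖fc (fun θ => pkt D (p.1 : ℕ) (ξ (p.1 : ℕ)) (E θ))
        ((nu (p.1 : ℕ) + p.2 : ℕ) : ℤ)‖ := by
      intro p hp
      rw [hW, Finset.mem_product, Finset.mem_range] at hp
      refine fc_pk_ge hD1 _ _ ?_ _
      rw [hDr]
      have : (p.2 : ℝ) ≤ K := by exact_mod_cast hp.2.le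
      linarith
    have h2 := Finset.card_nsmul_le_sum W _ _ h1
    refine le_trans (le_of_eq ?_) h2
    rw [hW, Finset.card_product, Finset.card_univ, Fintype.card_fin, Finset.card_range, nsmul_eq_mul,
      hDr]
    push_cast
    field_simp
    norm_num
  set P : ℂ → ℂ := pksum D ξ (eps δ) (Finset.range M) with hP
  have hPc : Continuous P := continuous_pksum _ _ _ _
  have hfcP : ∀ m, fc (fun θ => P (E θ)) m =
      ∑ y : Fin M, sgn (δ y) * fc (fun θ => pkt D y (ξ y) (E θ)) m := by
    intro m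
    have h1 : ∀ ζ, P ζ = ∑ y : Fin M, sgn (δ y) * pkt D y (ξ y) ζ := by
      intro ζ
      rw [hP]
      unfold pksum
      rw [Finset.sum_range]
      refine Finset.sum_congr rfl fun y _ => ?_
      unfold eps
      simp
    simp only [h1]
    rw [fc_sum (u := fun (y : Fin M) θ => sgn (δ y) * pkt D y (ξ y) (E θ))]
    · refine Finset.sum_congr rfl fun y _ => ?_
      exact fc_const_mul _ _ _
    · intro y
      exact continuous_const.mul ((continuous_pk _ _ _).comp continuous_E)
  have hinj : Set.InjOn (fun p : Fin M × ℕ => nu (p.1 : ℕ) + p.2) W := by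
    rintro ⟨y, i⟩ hp ⟨y', i'⟩ hp' h
    rw [hW, Finset.mem_coe, Finset.mem_product, Finset.mem_range] at hp hp'
    simp only [hnu] at h
    simp only at hp hp'
    have h1 : D * (y : ℕ) + i = D * (y' : ℕ) + i' := by omega
    have hi : i < D := by omega
    have hi' : i' < D := by omega
    have hD0 : 0 < D := by omega
    have e1 : (D * (y : ℕ) + i) / D = y := by
      rw [Nat.mul_add_div hD0, Nat.div_eq_of_lt hi, add_zero]
    have e2 : (D * (y' : ℕ) + i') / D = y' := by
      rw [Nat.mul_add_div hD0, Nat.div_eq_of_lt hi', add_zero]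
    have e3 : (y : ℕ) = y' := by rw [← e1, ← e2, h1]
    have e4 : i = i' := by
      rw [e3] at h1
      omega
    rw [Prod.mk.injEq]
    exact ⟨Fin.ext e3, e4⟩
  have hlowP : (M : ℝ) / 52 ≤ ∑ n ∈ W.image (fun p => nu (p.1 : ℕ) + p.2),
      ‖fc (fun θ => P (E θ)) (n : ℤ)‖ := by
    rw [Finset.sum_image hinj]
    refine hlow.trans (hδ.trans (le_of_eq ?_))
    refine Finset.sum_congr rfl fun p _ => ?_
    rw [hfcP]
  set s : ℝ := √N / M with hs
  have hs0 : 0 ≤ s := by positivity
  refine ⟨fun ζ => (s : ℂ) * P ζ, by fun_prop, ?_, ?_, ?_⟩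
  · intro w hw him
    have hτ := tau_ne hw him
    have hτ0 : 0 < |tau w| := abs_pos.mpr hτ
    obtain ⟨t1, t2⟩ := total_bound hw hRr hRD (fun y _ => hξ y) hy (norm_eps_le δ)
    have h1 : ∀ m, fc (fun θ => (s : ℂ) * P (Phi w θ)) m = s * fc (fun θ => P (Phi w θ)) m :=
      fun m => fc_const_mul _ _ _
    have h2 : ∀ m, ‖fc (fun θ => (s : ℂ) * P (Phi w θ)) m‖ = s * ‖fc (fun θ => P (Phi w θ)) m‖ := by
      intro m
      rw [h1, norm_mul, Complex.norm_real, Real.norm_eq_abs, abs_of_nonneg hs0]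
    simp only [h2]
    refine ⟨t1.mul_left s, ?_⟩
    rw [tsum_mul_left]
    have hcard : (N : ℝ) * (cells w ξ (Finset.range M)).card ≤
        (6 + 3 * |tau w| + 1 / |tau w|) * M := by
      have hc1 : ((cells w ξ (Finset.range M)).card : ℝ) ≤ M := by
        have := Finset.card_image_le (s := Finset.range M) (f := fun y => cell w y (ξ y))
        rw [Finset.card_range] at this
        unfold cells
        exact_mod_cast this
      by_cases hcase : |tau w| ≤ N ∧ 1 / |tau w| ≤ N
      · obtain ⟨j, hj, hj2⟩ := exists_slope hN hτ hcase.1 hcase.2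
        have h3 := card_cells (w := w) hB0 hj (N := (N : ℝ)) (by positivity) hσ hj2
        rw [← hM, ← hξd] at h3
        have h4 : (B : ℝ) = (N : ℝ) ^ 2 := by rw [hB]; push_cast; ring
        have h5 : ((B : ℝ)) ^ k = M := by rw [hM]; push_cast; ring
        rw [h4, ← h4, h5, h4] at h3
        have h6 : (N : ℝ) * ((N : ℝ) * (cells w ξ (Finset.range M)).card) ≤
            N * ((6 + 2 * |tau w|) * M) := by
          calc (N : ℝ) * ((N : ℝ) * (cells w ξ (Finset.range M)).card)
              = ((cells w ξ (Finset.range M)).card : ℝ) * (N : ℝ) ^ 2 := by ring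
            _ ≤ M * (6 + 2 * |tau w| * N) := h3
            _ ≤ M * (6 * N + 2 * |tau w| * N) := by
                gcongr
                linarith
            _ = _ := by ring
        have h7 := le_of_mul_le_mul_left h6 (by positivity)
        have h8 : 0 ≤ (|tau w| + 1 / |tau w|) * M := by positivity
        nlinarith
      · have hN2 : (N : ℝ) ≤ |tau w| + 1 / |tau w| := by
          have : 0 < 1 / |tau w| := by positivity
          by_contra hcon
          push Not at hcon
          exact hcase ⟨by linarith, by linarith⟩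
        calc (N : ℝ) * (cells w ξ (Finset.range M)).card ≤ (|tau w| + 1 / |tau w|) * M := by gcongr
          _ ≤ (6 + 3 * |tau w| + 1 / |tau w|) * M := by
              gcongr
              linarith
    have hC1 := C1_pos hw
    calc s * ∑' m, ‖fc (fun θ => P (Phi w θ)) m‖
        ≤ s * √(C1 w * ((cells w ξ (Finset.range M)).card * (Finset.range M).card)) := by gcongr
      _ = √(s ^ 2 * (C1 w * ((cells w ξ (Finset.range M)).card * (Finset.range M).card))) := by
          rw [Real.sqrt_mul (sq_nonneg s), Real.sqrt_sq hs0]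
      _ ≤ C2 w := by
          unfold C2
          apply Real.sqrt_le_sqrt
          rw [Finset.card_range, hs, div_pow, Real.sq_sqrt (by positivity)]
          have e1 : (N : ℝ) / (M : ℝ) ^ 2 * (C1 w * ((cells w ξ (Finset.range M)).card * M)) =
              C1 w * ((N * (cells w ξ (Finset.range M)).card) / M) := by
            field_simp
          rw [e1]
          refine mul_le_mul_of_nonneg_left ?_ hC1.le
          rw [div_le_iff₀ (by positivity)]
          exact hcard
  · intro m
    have h1 : fc (fun θ => (s : ℂ) * P (E θ)) m = s * fc (fun θ => P (E θ)) m := fc_const_mul _ _ _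
    rw [h1, norm_mul, Complex.norm_real, Real.norm_eq_abs, abs_of_nonneg hs0, hfcP]
    have hEc := continuous_E
    have h2 : ∀ y : Fin M, ‖sgn (δ y) * fc (fun θ => pkt D y (ξ y) (E θ)) m‖ ≤ 1 / D := by
      intro y
      rw [norm_mul, norm_sgn, one_mul, fc, norm_mul]
      have h3 : ‖(2 * π : ℂ)⁻¹‖ = (2 * π)⁻¹ := by
        rw [norm_inv, norm_mul, Complex.norm_real, Complex.norm_ofNat, Real.norm_eq_abs,
          abs_of_pos pi_pos]
      rw [h3]
      have hbc := continuous_bump D (E (ξ y / D))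
      have h4 : ‖∫ θ in (0 : ℝ)..(2 * π), pkt D y (ξ y) (E θ) * Complex.exp (-(m * θ * Complex.I))‖ ≤
          ∫ θ in (0 : ℝ)..(2 * π), bump D (E (ξ y / D)) (E θ) ^ 2 := by
        refine intervalIntegral.norm_integral_le_of_norm_le (by positivity) ?_ ?_
        · refine Eventually.of_forall fun θ _ => ?_
          have e1 : ‖Complex.exp (-((m : ℂ) * θ * Complex.I))‖ = 1 := by
            rw [Complex.norm_exp]
            simp
          rw [norm_mul, e1, mul_one]
          have := norm_pk_le (w := 0) (by simp) (D : ℝ) (D ^ 2 + D * (y : ℕ)) (E (ξ y / D)) θ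
          rw [Phi_zero] at this
          exact this
        · exact (by fun_prop : Continuous fun θ => bump D (E (ξ y / D)) (E θ) ^ 2).intervalIntegrable _ _
      have h5 := integral_bump_le (by linarith : (0 : ℝ) < D) (ξ y / D)
      calc (2 * π)⁻¹ * _ ≤ (2 * π)⁻¹ * (5 / D) := by
            gcongr
            exact h4.trans h5
        _ = ((2 * π)⁻¹ * 5) / D := by ring
        _ ≤ 1 / D := by
            gcongr
            rw [inv_mul_le_iff₀ (by positivity)]
            linarith [pi_gt_three]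
    have h3 : ‖∑ y : Fin M, sgn (δ y) * fc (fun θ => pkt D y (ξ y) (E θ)) m‖ ≤ M * (1 / D) := by
      refine (norm_sum_le _ _).trans ((Finset.sum_le_sum fun y _ => h2 y).trans (le_of_eq ?_))
      rw [Finset.sum_const, Finset.card_univ, Fintype.card_fin, nsmul_eq_mul]
    have h4 : √(N : ℝ) ≤ D := by
      have e1 : √(N : ℝ) ≤ N := by
        rw [Real.sqrt_le_left (by positivity)]
        nlinarith
      have e2 : (N : ℝ) ≤ R := by
        have : N ≤ R := by rw [hR]; nlinarith
        exact_mod_cast this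
      nlinarith
    calc s * ‖∑ y : Fin M, sgn (δ y) * fc (fun θ => pkt D y (ξ y) (E θ)) m‖
        ≤ s * (M * (1 / D)) := by gcongr
      _ = √N / D := by
          rw [hs]
          field_simp
      _ ≤ 1 := by
          rw [div_le_one (by linarith)]
          exact h4
  · refine ⟨W.image (fun p => nu (p.1 : ℕ) + p.2), ?_⟩
    have h1 : ∀ m : ℤ, ‖fc (fun θ => (s : ℂ) * P (E θ)) m‖ = s * ‖fc (fun θ => P (E θ)) m‖ := by
      intro m
      have : fc (fun θ => (s : ℂ) * P (E θ)) m = s * fc (fun θ => P (E θ)) m := fc_const_mul _ _ _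
      rw [this, norm_mul, Complex.norm_real, Real.norm_eq_abs, abs_of_nonneg hs0]
    simp only [h1]
    rw [← Finset.mul_sum]
    calc √(N : ℝ) / 52 = s * (M / 52) := by
          rw [hs]
          field_simp
      _ ≤ _ := by gcongr

end Pool.Agent.J4H53.MS
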