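import Pool.Agent.J4H53.MS.Series

/-!
# The function whose set of good shifts omits the centre only among the non-real points
-/

open Real MeasureTheory Set Filter
open scoped Topology ComplexConjugate

namespace Pool.Agent.J4H53.MS

theorem kappa_sum (κ z : ℂ) : HasSum (fun m : ℕ => (if m = 0 then κ else 0) * z ^ m) κ := by
  have h := hasSum_single (f := fun m : ℕ => (if m = 0 then κ else 0) * z ^ m) 0 (fun m hm => by
    simp [hm])
  simpa using h

/-- The power series of a Cauchy transform after a disc automorphism. -/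
theorem CT_mob_series {G : ℂ → ℂ} (hG : Continuous G) {w : ℂ} (hw : ‖w‖ < 1) :
    ∃ κ : ℂ, ∀ z : ℂ, ‖z‖ < 1 →
      HasSum (fun m : ℕ => (fc (fun θ => G (Phi w θ)) m + if m = 0 then κ else 0) * z ^ m)
        (CT G (mob w z)) := by
  refine ⟨(2 * π : ℂ)⁻¹ * ∫ θ in (0 : ℝ)..(2 * π), G (Phi w θ) *
        (conj w * E θ / (1 - conj w * E θ)), fun z hz => ?_⟩
  rw [CT_mob hG hw hz]
  have h1 := hasSum_cauchy (hG.comp (continuous_Phi hw)) hz
  have h2 := h1.add (kappa_sum ((2 * π : ℂ)⁻¹ * ∫ θ in (0 : ℝ)..(2 * π), G (Phi w θ) *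
        (conj w * E θ / (1 - conj w * E θ))) z)
  refine h2.congr_fun fun m => ?_
  simp only [Function.comp_def]
  ring

theorem CT_series {G : ℂ → ℂ} (hG : Continuous G) {z : ℂ} (hz : ‖z‖ < 1) :
    HasSum (fun m : ℕ => fc (fun θ => G (E θ)) m * z ^ m) (CT G z) :=
  hasSum_cauchy (hG.comp continuous_E) hz

theorem norm_CT_le {G : ℂ → ℂ} (hG : Continuous G) (h1 : ∀ m : ℤ, ‖fc (fun θ => G (E θ)) m‖ ≤ 1)
    {z : ℂ} (hz : ‖z‖ < 1) : ‖CT G z‖ ≤ 1 / (1 - ‖z‖) := by
  have h := CT_series hG hz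
  rw [← h.tsum_eq]
  have hg := summable_geometric_of_lt_one (norm_nonneg z) hz
  have hle : ∀ m : ℕ, ‖fc (fun θ => G (E θ)) m * z ^ m‖ ≤ ‖z‖ ^ m := by
    intro m
    rw [norm_mul, norm_pow]
    exact mul_le_of_le_one_left (by positivity) (h1 m)
  have hs : Summable fun m : ℕ => ‖fc (fun θ => G (E θ)) m * z ^ m‖ :=
    Summable.of_nonneg_of_le (fun _ => norm_nonneg _) hle hg
  refine (norm_tsum_le_tsum_norm hs).trans ((hs.tsum_le_tsum hle hg).trans ?_)
  rw [tsum_geometric_of_lt_one (norm_nonneg z) hz, one_div]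

/-- The main theorem. -/
theorem main : ∃ f : ℂ → ℂ, DifferentiableOn ℂ f (Metric.ball 0 1) ∧ (0 : ℂ) ∉ W f ∧
    ∀ w : ℂ, ‖w‖ < 1 → w.im ≠ 0 → w ∈ W f := by
  choose G hGc hGw hG1 hGT using fun k : ℕ => exists_block (Nat.succ_pos k)
  set a : ℕ → ℕ → ℂ := fun k n => fc (fun θ => G k (E θ)) (n : ℤ) with ha
  obtain ⟨c, hc, hdiv⟩ := exists_seq (a := a) (fun k n => hG1 k n) (by
    intro C
    obtain ⟨k, hk⟩ := exists_nat_gt ((52 * |C|) ^ 2)
    obtain ⟨T, hT⟩ := hGT k
    refine ⟨k, T, lt_of_lt_of_le ?_ hT⟩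
    have h1 : 52 * |C| < √((k.succ : ℕ) : ℝ) := by
      rw [Real.lt_sqrt (by positivity)]
      push_cast
      linarith
    rw [lt_div_iff₀ (by norm_num)]
    have := le_abs_self C
    linarith)
  set A : ℕ → ℂ := fun n => ∑' k, c k * a k n with hA
  set f : ℂ → ℂ := fun z => ∑' k, c k * CT (G k) z with hf
  have hfA : ∀ z : ℂ, ‖z‖ < 1 → HasSum (fun n => A n * z ^ n) (f z) := by
    intro z hz
    exact swap_sum (pow_summable hc (fun k m => hG1 k m) hz) fun k => CT_series (hGc k) hz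
  have hAb : ∀ n, ‖A n‖ ≤ ∑' k, ‖c k‖ := by
    intro n
    have hle : ∀ k, ‖c k * a k n‖ ≤ ‖c k‖ := fun k => by
      rw [norm_mul]
      exact mul_le_of_le_one_right (norm_nonneg _) (hG1 k n)
    have hs : Summable fun k => ‖c k * a k n‖ :=
      Summable.of_nonneg_of_le (fun _ => norm_nonneg _) hle hc
    exact (norm_tsum_le_tsum_norm hs).trans (hs.tsum_le_tsum hle hc)
  refine ⟨f, ?_, ?_, ?_⟩
  · intro z hz
    rw [mem_ball_zero_iff] at hz
    obtain ⟨r, hr1, hr2⟩ := exists_between hz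
    have hr0 : 0 ≤ r := (norm_nonneg z).trans hr1.le
    have h1 : DifferentiableOn ℂ (fun z => ∑' n, A n * z ^ n) (Metric.ball 0 r) := by
      refine Complex.differentiableOn_tsum_of_summable_norm (u := fun n => (∑' k, ‖c k‖) * r ^ n)
        ((summable_geometric_of_lt_one hr0 hr2).mul_left _) (fun n => by fun_prop)
        Metric.isOpen_ball fun n w hw => ?_
      rw [mem_ball_zero_iff] at hw
      rw [norm_mul, norm_pow]
      have := hAb n
      gcongr
    have h2 : EqOn f (fun z => ∑' n, A n * z ^ n) (Metric.ball 0 r) := fun w hw => by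
      rw [mem_ball_zero_iff] at hw
      exact (hfA w (hw.trans hr2)).tsum_eq.symm
    have h3 : DifferentiableOn ℂ f (Metric.ball 0 r) := h1.congr h2
    exact (h3.differentiableAt (Metric.isOpen_ball.mem_nhds (by rwa [mem_ball_zero_iff]))).differentiableWithinAt
  · rintro ⟨_, b, hb1, hb2⟩
    have h1 : ∀ z : ℂ, ‖z‖ < 1 → HasSum (fun n => b n * z ^ n) (f z) := by
      intro z hz
      have := hb2 z hz
      simpa using this
    have h2 := coef_unique h1 hfA
    rw [h2] at hb1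
    exact hdiv hb1
  · intro w hw him
    refine ⟨hw, ?_⟩
    choose κ hκ using fun k => CT_mob_series (hGc k) hw
    set b : ℕ → ℕ → ℂ := fun k m => fc (fun θ => G k (Phi w θ)) m + if m = 0 then κ k else 0 with hb
    have hB0 : 0 ≤ C2 w := Real.sqrt_nonneg _
    have hw0 : 0 < 1 - ‖w‖ := by linarith
    -- natural sums
    have hnat : ∀ k, Summable (fun m : ℕ => ‖fc (fun θ => G k (Phi w θ)) (m : ℤ)‖) ∧
        ∑' m : ℕ, ‖fc (fun θ => G k (Phi w θ)) (m : ℤ)‖ ≤ C2 w := by
      intro k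
      obtain ⟨s1, s2⟩ := hGw k w hw him
      have hinj : Function.Injective (fun m : ℕ => (m : ℤ)) := Nat.cast_injective
      have s3 := s1.comp_injective hinj
      refine ⟨s3, le_trans ?_ s2⟩
      exact s3.tsum_le_tsum_of_inj (fun m : ℕ => (m : ℤ)) hinj (fun _ _ => norm_nonneg _)
        (fun _ => le_rfl) s1
    have hfc0 : ∀ k, ‖fc (fun θ => G k (Phi w θ)) ((0 : ℕ) : ℤ)‖ ≤ C2 w := fun k =>
      ((hnat k).1.le_tsum 0 fun _ _ => norm_nonneg _).trans (hnat k).2
    have hκb : ∀ k, ‖κ k‖ ≤ 1 / (1 - ‖w‖) + C2 w := by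
      intro k
      have h1 := hκ k 0 (by simp)
      have h2 := hasSum_single (f := fun m : ℕ =>
        (fc (fun θ => G k (Phi w θ)) m + if m = 0 then κ k else 0) * (0 : ℂ) ^ m) 0 (fun m hm => by
          simp [hm])
      have h3 := h1.unique h2
      have h4 : mob w 0 = -w := by simp [mob]
      simp only [if_true, pow_zero, mul_one, h4] at h3
      have h5 := norm_CT_le (hGc k) (hG1 k) (z := -w) (by simpa using hw)
      rw [norm_neg] at h5
      have h6 : κ k = CT (G k) (-w) - fc (fun θ => G k (Phi w θ)) ((0 : ℕ) : ℤ) := by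
        rw [h3]; ring
      rw [h6]
      refine (norm_sub_le _ _).trans (add_le_add h5 (hfc0 k))
    set B : ℝ := C2 w + (1 / (1 - ‖w‖) + C2 w) with hB
    have hB' : 0 ≤ B := by positivity
    have hite : ∀ k, HasSum (fun m : ℕ => ‖(if m = 0 then κ k else 0 : ℂ)‖) ‖κ k‖ := by
      intro k
      have h := hasSum_single (f := fun m : ℕ => ‖(if m = 0 then κ k else 0 : ℂ)‖) 0 (fun m hm => by
        simp [hm])
      simpa using h
    have hbs : ∀ k, Summable (fun m => ‖b k m‖) ∧ ∑' m, ‖b k m‖ ≤ B := by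
      intro k
      have h1 : ∀ m, ‖b k m‖ ≤ ‖fc (fun θ => G k (Phi w θ)) (m : ℤ)‖ +
          ‖(if m = 0 then κ k else 0 : ℂ)‖ := fun m => norm_add_le _ _
      have h2 := (hnat k).1.add (hite k).summable
      have h3 : Summable fun m => ‖b k m‖ := Summable.of_nonneg_of_le (fun _ => norm_nonneg _) h1 h2
      refine ⟨h3, (h3.tsum_le_tsum h1 h2).trans ?_⟩
      rw [(hnat k).1.tsum_add (hite k).summable, (hite k).tsum_eq]
      exact add_le_add (hnat k).2 (hκb k)
    have hbb : ∀ k m, ‖b k m‖ ≤ B := fun k m =>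
      ((hbs k).1.le_tsum m fun _ _ => norm_nonneg _).trans (hbs k).2
    have hprod : Summable fun p : ℕ × ℕ => ‖c p.1 * b p.1 p.2‖ := by
      rw [summable_prod_of_nonneg (fun p => norm_nonneg _)]
      refine ⟨fun k => ?_, ?_⟩
      · simp only [norm_mul]
        exact (hbs k).1.mul_left _
      · simp only [norm_mul, tsum_mul_left]
        refine Summable.of_nonneg_of_le (fun k => ?_) (fun k => ?_) (hc.mul_right B)
        · exact mul_nonneg (norm_nonneg _) (tsum_nonneg fun _ => norm_nonneg _)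
        · exact mul_le_mul_of_nonneg_left (hbs k).2 (norm_nonneg _)
    refine ⟨fun m => ∑' k, c k * b k m, ?_, fun z hz => ?_⟩
    · have h1 : Summable fun p : ℕ × ℕ => ‖c p.2 * b p.2 p.1‖ :=
        (Equiv.prodComm ℕ ℕ).summable_iff.mpr hprod
      have h2 := h1.prod
      refine Summable.of_nonneg_of_le (fun _ => norm_nonneg _) (fun m => ?_) h2
      exact norm_tsum_le_tsum_norm (h1.prod_factor m)
    · exact swap_sum (pow_summable hc hbb hz) fun k => hκ k z hz

end Pool.Agent.J4H53.MS
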