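import Pool.Agent.J4H53.MS.Coef

/-!
# The boundary action of the disc automorphisms
-/

open Real MeasureTheory Set Filter
open scoped Topology ComplexConjugate

namespace Pool.Agent.J4H53.MS

/-- The disc automorphism `z ↦ (z - w) / (1 - w̄ z)`. -/
noncomputable def mob (w z : ℂ) : ℂ := (z - w) / (1 - conj w * z)

/-- The point `exp (iθ)` of the unit circle. -/
noncomputable def E (θ : ℝ) : ℂ := Complex.exp (θ * Complex.I)

/-- The boundary map of the automorphism in terms of the angle. -/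
noncomputable def Phi (w : ℂ) (θ : ℝ) : ℂ := mob w (E θ)

/-- The angular speed of the boundary map at the image point. -/
noncomputable def Q (w ζ : ℂ) : ℝ := ‖1 + conj w * ζ‖ ^ 2 / (1 - ‖w‖ ^ 2)

theorem norm_E (θ : ℝ) : ‖E θ‖ = 1 := Complex.norm_exp_ofReal_mul_I θ

theorem E_ne (θ : ℝ) : E θ ≠ 0 := Complex.exp_ne_zero _

theorem conj_E (θ : ℝ) : conj (E θ) = (E θ)⁻¹ := by
  rw [Complex.inv_def, Complex.normSq_eq_norm_sq, norm_E]
  simp

theorem continuous_E : Continuous E := by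
  unfold E
  fun_prop

theorem E_add (a b : ℝ) : E (a + b) = E a * E b := by
  unfold E
  rw [← Complex.exp_add]
  congr 1
  push_cast
  ring

theorem E_two_pi : E (2 * π) = 1 := by
  unfold E
  push_cast
  exact Complex.exp_two_pi_mul_I

theorem E_zero : E 0 = 1 := by simp [E]

theorem E_periodic : Function.Periodic E (2 * π) := fun θ => by
  rw [E_add, E_two_pi, mul_one]

theorem hasDerivAt_E (θ : ℝ) : HasDerivAt E (Complex.I * E θ) θ := by
  have h : HasDerivAt (fun θ : ℝ => (θ : ℂ) * Complex.I) Complex.I θ := by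
    simpa using (hasDerivAt_id θ).ofReal_comp.mul_const Complex.I
  exact h.cexp.congr_deriv (by rw [mul_comm]; rfl)

theorem den_ne {w z : ℂ} (hw : ‖w‖ < 1) (hz : ‖z‖ ≤ 1) : 1 - conj w * z ≠ 0 := by
  intro h
  have h1 : ‖conj w * z‖ = 1 := by
    have : conj w * z = 1 := by linear_combination -h
    rw [this, norm_one]
  rw [norm_mul, RCLike.norm_conj] at h1
  nlinarith [norm_nonneg w, norm_nonneg z]

theorem one_sub_sq_pos {w : ℂ} (hw : ‖w‖ < 1) : 0 < 1 - ‖w‖ ^ 2 := by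
  nlinarith [norm_nonneg w]

theorem mul_conj' (w : ℂ) : w * conj w = ((‖w‖ ^ 2 : ℝ) : ℂ) := by
  rw [Complex.mul_conj, Complex.normSq_eq_norm_sq]

/-- `1 + w̄ ζ` in terms of `z`, where `ζ = mob w z`. -/
theorem one_add_mob {w z : ℂ} (hw : ‖w‖ < 1) (hz : ‖z‖ ≤ 1) :
    1 + conj w * mob w z = ((1 - ‖w‖ ^ 2 : ℝ) : ℂ) / (1 - conj w * z) := by
  have h := den_ne hw hz
  have h1 := mul_conj' w
  rw [mob, eq_div_iff h]
  field_simp
  push_cast
  push_cast at h1
  linear_combination -h1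

theorem mob_mem {w z : ℂ} (hw : ‖w‖ < 1) (hz : ‖z‖ ≤ 1) :
    1 - ‖mob w z‖ ^ 2 = (1 - ‖w‖ ^ 2) * (1 - ‖z‖ ^ 2) / ‖1 - conj w * z‖ ^ 2 := by
  have h := den_ne hw hz
  have h' : ‖1 - conj w * z‖ ^ 2 ≠ 0 := by simpa using h
  rw [mob, norm_div, div_pow, eq_div_iff h', sub_mul, div_mul_cancel₀ _ h']
  have e : ∀ x : ℂ, ‖x‖ ^ 2 = x.re ^ 2 + x.im ^ 2 := fun x => by
    rw [← Complex.normSq_eq_norm_sq, Complex.normSq_apply]; ring
  simp only [e, Complex.sub_re, Complex.sub_im, Complex.mul_re, Complex.mul_im, Complex.conj_re,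
    Complex.conj_im, Complex.one_re, Complex.one_im]
  ring

theorem norm_mob_lt {w z : ℂ} (hw : ‖w‖ < 1) (hz : ‖z‖ < 1) : ‖mob w z‖ < 1 := by
  have h := mob_mem hw hz.le
  have h1 : 0 < (1 - ‖w‖ ^ 2) * (1 - ‖z‖ ^ 2) / ‖1 - conj w * z‖ ^ 2 := by
    have := one_sub_sq_pos hw
    have := one_sub_sq_pos hz
    have := norm_pos_iff.mpr (den_ne hw hz.le)
    positivity
  nlinarith [norm_nonneg (mob w z)]

theorem norm_mob_eq {w z : ℂ} (hw : ‖w‖ < 1) (hz : ‖z‖ = 1) : ‖mob w z‖ = 1 := by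
  have h := mob_mem hw hz.le
  rw [hz] at h
  norm_num at h
  have h2 : ‖mob w z‖ ^ 2 = 1 := by linarith
  nlinarith [norm_nonneg (mob w z), sq_nonneg (‖mob w z‖ - 1)]

theorem norm_Phi {w : ℂ} (hw : ‖w‖ < 1) (θ : ℝ) : ‖Phi w θ‖ = 1 := norm_mob_eq hw (norm_E θ)

theorem Q_Phi {w : ℂ} (hw : ‖w‖ < 1) (θ : ℝ) :
    Q w (Phi w θ) = (1 - ‖w‖ ^ 2) / ‖1 - conj w * E θ‖ ^ 2 := by
  have h := one_sub_sq_pos hw
  rw [Q, Phi, one_add_mob hw (norm_E θ).le, norm_div, Complex.norm_real, Real.norm_eq_abs,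
    abs_of_pos h, div_pow]
  have := norm_pos_iff.mpr (den_ne hw (norm_E θ).le)
  field_simp

theorem hasDerivAt_Phi {w : ℂ} (hw : ‖w‖ < 1) (θ : ℝ) :
    HasDerivAt (Phi w) (Complex.I * Q w (Phi w θ) * Phi w θ) θ := by
  have hd := den_ne hw (norm_E θ).le
  have h1 : HasDerivAt (fun θ : ℝ => E θ - w) (Complex.I * E θ) θ := (hasDerivAt_E θ).sub_const w
  have h2 : HasDerivAt (fun θ : ℝ => 1 - conj w * E θ) (-(conj w * (Complex.I * E θ))) θ :=
    ((hasDerivAt_E θ).const_mul (conj w)).const_sub 1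
  have h3 := h1.div h2 hd
  have h4 : (1 - w * conj (E θ)) * E θ = E θ - w := by
    rw [conj_E]
    have := E_ne θ
    field_simp
  have h5 : (1 - conj w * E θ) * (1 - w * conj (E θ)) = ((‖1 - conj w * E θ‖ ^ 2 : ℝ) : ℂ) := by
    rw [← mul_conj']
    simp
  have hn : ((‖1 - conj w * E θ‖ ^ 2 : ℝ) : ℂ) ≠ 0 := by
    have := norm_pos_iff.mpr hd
    exact_mod_cast (by positivity : ‖1 - conj w * E θ‖ ^ 2 ≠ 0)
  refine h3.congr_deriv ?_
  rw [Q_Phi hw, Phi, mob]
  have hd2 : 1 - w * conj (E θ) ≠ 0 := by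
    intro h0
    rw [h0, mul_zero] at h5
    exact hn h5.symm
  rw [Complex.ofReal_div, ← h5]
  have h6 : E θ - w = (1 - w * conj (E θ)) * E θ := h4.symm
  have h7 := mul_conj' w
  have h8 : conj (E θ) * E θ = 1 := by
    rw [conj_E]
    exact inv_mul_cancel₀ (E_ne θ)
  rw [h6]
  have h9 : Complex.I * E θ * (1 - conj w * E θ) -
      (1 - w * conj (E θ)) * E θ * -(conj w * (Complex.I * E θ)) =
      Complex.I * ((1 - ‖w‖ ^ 2 : ℝ) : ℂ) * E θ := by
    push_cast
    push_cast at h7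
    linear_combination (-(Complex.I * E θ * conj w * w)) * h8 - Complex.I * E θ * h7
  rw [h9]
  field_simp

theorem Q_pos {w ζ : ℂ} (hw : ‖w‖ < 1) (hζ : ‖ζ‖ ≤ 1) : 0 < Q w ζ := by
  unfold Q
  have h1 : 1 + conj w * ζ ≠ 0 := by
    have := den_ne (w := -w) (z := ζ) (by simpa using hw) hζ
    simpa using this
  have := norm_pos_iff.mpr h1
  have := one_sub_sq_pos hw
  positivity

theorem Q_le {w ζ : ℂ} (hw : ‖w‖ < 1) (hζ : ‖ζ‖ ≤ 1) : Q w ζ ≤ 4 / (1 - ‖w‖ ^ 2) := by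
  unfold Q
  refine div_le_div_of_nonneg_right ?_ (one_sub_sq_pos hw).le
  have h1 : ‖1 + conj w * ζ‖ ≤ 2 := by
    refine (norm_add_le _ _).trans ?_
    rw [norm_one, norm_mul, RCLike.norm_conj]
    nlinarith [norm_nonneg w, norm_nonneg ζ]
  nlinarith [norm_nonneg (1 + conj w * ζ)]

theorem Q_ge {w ζ : ℂ} (hw : ‖w‖ < 1) (hζ : ‖ζ‖ ≤ 1) : (1 - ‖w‖) ^ 2 ≤ Q w ζ := by
  unfold Q
  have h0 := one_sub_sq_pos hw
  rw [le_div_iff₀ h0]
  have h1 : 1 - ‖w‖ ≤ ‖1 + conj w * ζ‖ := by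
    have h2 : ‖(1 : ℂ)‖ - ‖-(conj w * ζ)‖ ≤ ‖1 - -(conj w * ζ)‖ := norm_sub_norm_le _ _
    rw [norm_one, norm_neg, norm_mul, RCLike.norm_conj, sub_neg_eq_add] at h2
    nlinarith [norm_nonneg w, norm_nonneg ζ]
  have h3 : 0 ≤ 1 - ‖w‖ := by linarith
  have h4 : (1 - ‖w‖) ^ 2 ≤ ‖1 + conj w * ζ‖ ^ 2 := by gcongr
  nlinarith [sq_nonneg (1 - ‖w‖), sq_nonneg ‖w‖]

theorem continuous_Q (w : ℂ) : Continuous (Q w) := by
  unfold Q
  fun_prop

theorem continuous_Phi {w : ℂ} (hw : ‖w‖ < 1) : Continuous (Phi w) :=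
  continuous_iff_continuousAt.mpr fun θ => (hasDerivAt_Phi hw θ).continuousAt

theorem Phi_periodic (w : ℂ) : Function.Periodic (Phi w) (2 * π) := fun θ => by
  unfold Phi
  rw [E_periodic θ]

/-- Total mass of the Poisson kernel. -/
theorem integral_Q {w : ℂ} (hw : ‖w‖ < 1) :
    ∫ θ in (0 : ℝ)..(2 * π), Q w (Phi w θ) = 2 * π := by
  have h1 : ∮ z in C(0, 1), (z - w)⁻¹ = 2 * π * Complex.I :=
    circleIntegral.integral_sub_inv_of_mem_ball (by simpa using hw)
  rw [circleIntegral] at h1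
  have h2 : ∀ θ : ℝ, E θ - w ≠ 0 := fun θ h => by
    have : E θ = w := by linear_combination h
    have h3 := norm_E θ
    rw [this] at h3
    linarith
  have h3 : ∀ θ : ℝ, deriv (circleMap 0 1) θ • (circleMap 0 1 θ - w)⁻¹ =
      Complex.I * (E θ / (E θ - w)) := by
    intro θ
    have : circleMap 0 1 θ = E θ := by simp [circleMap, E]
    rw [deriv_circleMap, this, smul_eq_mul]
    ring
  simp only [h3] at h1
  rw [intervalIntegral.integral_const_mul] at h1
  have h4 : ∫ θ in (0 : ℝ)..(2 * π), E θ / (E θ - w) = 2 * π := by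
    have hI := Complex.I_ne_zero
    have : Complex.I * (∫ θ in (0 : ℝ)..(2 * π), E θ / (E θ - w)) = Complex.I * (2 * π) := by
      rw [h1]; ring
    exact mul_left_cancel₀ hI this
  have hc : Continuous fun θ : ℝ => E θ / (E θ - w) :=
    continuous_E.div (continuous_E.sub continuous_const) h2
  have h5 : ∫ θ in (0 : ℝ)..(2 * π), conj (E θ / (E θ - w)) = 2 * π := by
    have := intervalIntegral.intervalIntegral_conj (f := fun θ : ℝ => E θ / (E θ - w))
      (a := (0 : ℝ)) (b := 2 * π) (μ := volume)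
    rw [this, h4, map_mul, Complex.conj_ofReal, map_ofNat]
  have h6 : ∀ θ : ℝ, ((Q w (Phi w θ) : ℝ) : ℂ) =
      E θ / (E θ - w) + conj (E θ / (E θ - w)) - 1 := by
    intro θ
    rw [Q_Phi hw]
    have hd := h2 θ
    have hd2 : conj (E θ - w) ≠ 0 := (map_ne_zero (starRingEnd ℂ)).mpr hd
    have h7 : ‖1 - conj w * E θ‖ ^ 2 = ‖E θ - w‖ ^ 2 := by
      have e1 : E θ - w = (1 - w * conj (E θ)) * E θ := by
        rw [conj_E]
        have := E_ne θ
        field_simp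
      have e2 : 1 - w * conj (E θ) = conj (1 - conj w * E θ) := by simp
      rw [e1, norm_mul, norm_E, mul_one, e2, RCLike.norm_conj]
    have h8 : ((‖E θ - w‖ ^ 2 : ℝ) : ℂ) = (E θ - w) * conj (E θ - w) := (mul_conj' _).symm
    have h9 := mul_conj' w
    have h10 : E θ * conj (E θ) = 1 := by
      rw [mul_conj', norm_E]; simp
    rw [h7, Complex.ofReal_div, h8, map_div₀]
    field_simp
    rw [map_sub]
    push_cast
    push_cast at h9
    linear_combination h9 - h10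
  have h7 : ((∫ θ in (0 : ℝ)..(2 * π), Q w (Phi w θ) : ℝ) : ℂ) = 2 * π := by
    rw [← intervalIntegral.integral_ofReal]
    simp only [h6]
    have hc2 : Continuous fun θ : ℝ => conj (E θ / (E θ - w)) := Complex.continuous_conj.comp hc
    have e1 := intervalIntegral.integral_sub (μ := volume) (a := 0) (b := 2 * π)
      (f := fun θ : ℝ => E θ / (E θ - w) + conj (E θ / (E θ - w))) (g := fun _ => (1 : ℂ))
      ((hc.add hc2).intervalIntegrable _ _) (continuous_const.intervalIntegrable _ _)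
    have e2 := intervalIntegral.integral_add (μ := volume) (a := 0) (b := 2 * π)
      (f := fun θ : ℝ => E θ / (E θ - w)) (g := fun θ : ℝ => conj (E θ / (E θ - w)))
      (hc.intervalIntegrable _ _) (hc2.intervalIntegrable _ _)
    rw [e1, e2, h4, h5]
    simp
  exact_mod_cast h7

/-- Change of variables under the boundary map. -/
theorem change_var {F : Type*} [NormedAddCommGroup F] [NormedSpace ℝ F] [CompleteSpace F] {w : ℂ}
    (hw : ‖w‖ < 1) {H : ℂ → F} (hH : Continuous fun θ : ℝ => H (E θ)) :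
    ∫ θ in (0 : ℝ)..(2 * π), Q w (Phi w θ) • H (Phi w θ) = ∫ θ in (0 : ℝ)..(2 * π), H (E θ) := by
  obtain ⟨ψ₀, h0⟩ : ∃ ψ₀ : ℝ, E ψ₀ = Phi w 0 := by
    refine ⟨Complex.arg (Phi w 0), ?_⟩
    have := Complex.norm_mul_exp_arg_mul_I (Phi w 0)
    rw [norm_Phi hw, Complex.ofReal_one, one_mul] at this
    exact this
  have hQc : Continuous fun θ : ℝ => Q w (Phi w θ) := (continuous_Q w).comp (continuous_Phi hw)
  set ψ : ℝ → ℝ := fun θ => ψ₀ + ∫ t in (0 : ℝ)..θ, Q w (Phi w t) with hψ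
  have hψd : ∀ θ, HasDerivAt ψ (Q w (Phi w θ)) θ := fun θ =>
    (intervalIntegral.integral_hasDerivAt_right (hQc.intervalIntegrable _ _)
      hQc.aestronglyMeasurable.stronglyMeasurableAtFilter hQc.continuousAt).const_add ψ₀
  have hlift : ∀ θ, Phi w θ = E (ψ θ) := by
    have hd : ∀ θ, HasDerivAt (fun θ => Phi w θ * E (-ψ θ)) 0 θ := by
      intro θ
      have e1 : HasDerivAt (fun θ => E (-ψ θ)) (-(Q w (Phi w θ)) • (Complex.I * E (-ψ θ))) θ :=
        HasDerivAt.scomp (g₁ := E) (h := fun θ => -ψ θ) θ (hasDerivAt_E (-ψ θ)) (hψd θ).fun_neg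
      refine ((hasDerivAt_Phi hw θ).mul e1).congr_deriv ?_
      rw [Complex.real_smul]
      push_cast
      ring
    have hconst := is_const_of_deriv_eq_zero (fun θ => (hd θ).differentiableAt) fun θ => (hd θ).deriv
    intro θ
    have h1 := hconst θ 0
    have h2 : ψ 0 = ψ₀ := by simp [hψ]
    rw [h2, ← h0, ← E_add, add_neg_cancel, E_zero] at h1
    calc Phi w θ = Phi w θ * (E (-ψ θ) * E (ψ θ)) := by
          rw [← E_add, neg_add_cancel, E_zero, mul_one]
      _ = (Phi w θ * E (-ψ θ)) * E (ψ θ) := by ring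
      _ = E (ψ θ) := by rw [h1, one_mul]
  have h3 := intervalIntegral.integral_deriv_smul_comp' (a := (0 : ℝ)) (b := 2 * π) (f := ψ)
    (f' := fun θ => Q w (Phi w θ)) (g := fun α => H (E α)) (fun θ _ => hψd θ) hQc.continuousOn
    hH.continuousOn
  have h4 : ψ (2 * π) = ψ 0 + 2 * π := by
    simp only [hψ, intervalIntegral.integral_same, add_zero, integral_Q hw]
  rw [h4] at h3
  have hper : Function.Periodic (fun α => H (E α)) (2 * π) := fun α => by
    change H (E (α + 2 * π)) = H (E α)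
    rw [E_periodic α]
  rw [hper.intervalIntegral_add_eq (ψ 0) 0, zero_add] at h3
  rw [← h3]
  refine intervalIntegral.integral_congr fun θ _ => ?_
  simp only [Function.comp_apply]
  rw [hlift θ]

end Pool.Agent.J4H53.MS
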