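import Pool.Agent.J4H53.MS.CT

/-!
# Wave packets on the circle and their images under disc automorphisms
-/

open Real MeasureTheory Set Filter
open scoped Topology ComplexConjugate

namespace Pool.Agent.J4H53.MS

/-- A bump at the point `η` of the circle, of width `1 / D`. -/
noncomputable def bump (D : ℝ) (η ζ : ℂ) : ℝ := max 0 (1 - D ^ 2 * ‖ζ - η‖ ^ 2)

/-- A wave packet of frequency `ν` at the point `η`. -/
noncomputable def pk (D : ℝ) (ν : ℕ) (η ζ : ℂ) : ℂ := ζ ^ ν * ((bump D η ζ ^ 2 : ℝ) : ℂ)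

theorem bump_nonneg (D : ℝ) (η ζ : ℂ) : 0 ≤ bump D η ζ := le_max_left _ _

theorem bump_le_one (D : ℝ) (η ζ : ℂ) : bump D η ζ ≤ 1 := by
  unfold bump
  refine max_le zero_le_one ?_
  have : 0 ≤ D ^ 2 * ‖ζ - η‖ ^ 2 := by positivity
  linarith

theorem continuous_bump (D : ℝ) (η : ℂ) : Continuous (bump D η) := by
  unfold bump
  fun_prop

theorem continuous_pk (D : ℝ) (ν : ℕ) (η : ℂ) : Continuous (pk D ν η) := by
  unfold pk
  have := continuous_bump D η
  fun_prop

theorem dist_of_bump {D : ℝ} (hD : 0 < D) {η ζ : ℂ} (h : 0 < bump D η ζ) : ‖ζ - η‖ < 1 / D := by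
  unfold bump at h
  rw [lt_max_iff] at h
  have h1 : 0 < 1 - D ^ 2 * ‖ζ - η‖ ^ 2 := h.resolve_left (lt_irrefl _)
  rw [lt_div_iff₀ hD]
  by_contra hc
  push Not at hc
  nlinarith [norm_nonneg (ζ - η)]

theorem hasDerivAt_max_sq (x : ℝ) : HasDerivAt (fun x : ℝ => (max 0 x) ^ 2) (2 * max 0 x) x := by
  rcases lt_trichotomy x 0 with h | h | h
  · rw [max_eq_left h.le, mul_zero]
    refine (hasDerivAt_const x (0 : ℝ)).congr_of_eventuallyEq ?_
    filter_upwards [eventually_lt_nhds h] with y hy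
    rw [max_eq_left hy.le]
    simp
  · subst h
    rw [max_self, mul_zero, hasDerivAt_iff_isLittleO]
    simp only [max_self, ne_eq, OfNat.ofNat_ne_zero, not_false_eq_true, zero_pow, sub_zero,
      smul_zero]
    rw [Asymptotics.isLittleO_iff]
    intro c hc
    filter_upwards [Metric.ball_mem_nhds (0 : ℝ) hc] with y hy
    rw [Metric.mem_ball, dist_zero_right, Real.norm_eq_abs] at hy
    rw [Real.norm_eq_abs, Real.norm_eq_abs, abs_of_nonneg (sq_nonneg _)]
    have h1 : max 0 y ≤ |y| := max_le (abs_nonneg _) (le_abs_self _)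
    have h2 : 0 ≤ max 0 y := le_max_left _ _
    nlinarith [abs_nonneg y]
  · rw [max_eq_right h.le]
    have h1 : HasDerivAt (fun x : ℝ => x ^ 2) (2 * x) x := by simpa using hasDerivAt_pow 2 x
    refine h1.congr_of_eventuallyEq ?_
    filter_upwards [eventually_gt_nhds h] with y hy
    rw [max_eq_right hy.le]

/-- The angular derivative of `1 - D² ‖Φ - η‖²`. -/
noncomputable def dslope (D : ℝ) (η w : ℂ) (θ : ℝ) : ℝ :=
  -(D ^ 2 * (2 * (conj (Phi w θ - η) * (Complex.I * Q w (Phi w θ) * Phi w θ)).re))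

theorem hasDerivAt_slope {w : ℂ} (hw : ‖w‖ < 1) (D : ℝ) (η : ℂ) (θ : ℝ) :
    HasDerivAt (fun θ => 1 - D ^ 2 * ‖Phi w θ - η‖ ^ 2) (dslope D η w θ) θ := by
  have h1 := (hasDerivAt_Phi hw θ).sub_const η
  have h2 := h1.norm_sq
  have h3 := (h2.const_mul (D ^ 2)).const_sub 1
  refine h3.congr_deriv ?_
  unfold dslope
  rw [Complex.inner, mul_comm (conj (Phi w θ - η))]

theorem dslope_le {w : ℂ} (hw : ‖w‖ < 1) (D : ℝ) (η : ℂ) (θ : ℝ) :
    |dslope D η w θ| ≤ 2 * D ^ 2 * ‖Phi w θ - η‖ * Q w (Phi w θ) := by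
  unfold dslope
  rw [abs_neg, abs_mul, abs_mul, abs_of_nonneg (sq_nonneg D), abs_two]
  have h1 := Complex.abs_re_le_norm (conj (Phi w θ - η) * (Complex.I * Q w (Phi w θ) * Phi w θ))
  rw [norm_mul, norm_mul, norm_mul, RCLike.norm_conj, Complex.norm_I, norm_Phi hw, Complex.norm_real,
    Real.norm_eq_abs, abs_of_pos (Q_pos hw (norm_Phi hw θ).le)] at h1
  have h2 : (0 : ℝ) ≤ D ^ 2 := sq_nonneg D
  nlinarith

/-- The angular derivative of a wave packet. -/
noncomputable def dpk (D : ℝ) (ν : ℕ) (η w : ℂ) (θ : ℝ) : ℂ :=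
  Complex.I * (ν * Q w (Phi w θ)) * pk D ν η (Phi w θ) +
    Phi w θ ^ ν * ((2 * bump D η (Phi w θ) * dslope D η w θ : ℝ) : ℂ)

theorem hasDerivAt_pk {w : ℂ} (hw : ‖w‖ < 1) (D : ℝ) (ν : ℕ) (η : ℂ) (θ : ℝ) :
    HasDerivAt (fun θ => pk D ν η (Phi w θ)) (dpk D ν η w θ) θ := by
  have h1 : HasDerivAt (fun θ => Phi w θ ^ ν)
      (Complex.I * (ν * Q w (Phi w θ)) * Phi w θ ^ ν) θ := by
    have := (hasDerivAt_Phi hw θ).fun_pow ν
    refine this.congr_deriv ?_
    rcases Nat.eq_zero_or_pos ν with h | h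
    · subst h; simp
    · obtain ⟨k, rfl⟩ : ∃ k, ν = k + 1 := ⟨ν - 1, by omega⟩
      simp only [Nat.add_sub_cancel, pow_succ]
      ring
  have h2 : HasDerivAt (fun θ => bump D η (Phi w θ) ^ 2)
      (2 * bump D η (Phi w θ) * dslope D η w θ) θ :=
    HasDerivAt.comp (h₂ := fun x : ℝ => (max 0 x) ^ 2) θ (hasDerivAt_max_sq _)
      (hasDerivAt_slope hw D η θ)
  have h3 := h1.mul h2.ofReal_comp
  refine h3.congr_deriv ?_
  unfold dpk pk
  push_cast
  ring

theorem continuous_dslope {w : ℂ} (hw : ‖w‖ < 1) (D : ℝ) (η : ℂ) : Continuous (dslope D η w) := by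
  unfold dslope
  have h1 := continuous_Phi hw
  have h2 : Continuous fun θ => Q w (Phi w θ) := (continuous_Q w).comp h1
  fun_prop

theorem continuous_dpk {w : ℂ} (hw : ‖w‖ < 1) (D : ℝ) (ν : ℕ) (η : ℂ) :
    Continuous (dpk D ν η w) := by
  unfold dpk
  have h1 := continuous_Phi hw
  have h2 : Continuous fun θ => Q w (Phi w θ) := (continuous_Q w).comp h1
  have h3 : Continuous fun θ => pk D ν η (Phi w θ) := (continuous_pk D ν η).comp h1
  have h4 : Continuous fun θ => bump D η (Phi w θ) := (continuous_bump D η).comp h1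
  have h5 := continuous_dslope hw D η
  fun_prop

theorem norm_pk_le {w : ℂ} (hw : ‖w‖ < 1) (D : ℝ) (ν : ℕ) (η : ℂ) (θ : ℝ) :
    ‖pk D ν η (Phi w θ)‖ ≤ bump D η (Phi w θ) ^ 2 := by
  unfold pk
  rw [norm_mul, norm_pow, norm_Phi hw, one_pow, one_mul, Complex.norm_real, Real.norm_eq_abs,
    abs_of_nonneg (sq_nonneg _)]

/-- Size of the modulated derivative of a packet. -/
theorem norm_dpk_le {w : ℂ} (hw : ‖w‖ < 1) {D : ℝ} (hD : 0 < D) (ν : ℕ) (η : ℂ) (μ : ℤ) (θ : ℝ)
    {A : ℝ} (hA : 0 < bump D η (Phi w θ) → |ν * Q w (Phi w θ) - μ| ≤ A) :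
    ‖dpk D ν η w θ - Complex.I * μ * pk D ν η (Phi w θ)‖ ≤
      A * bump D η (Phi w θ) ^ 2 + 4 * D * Q w (Phi w θ) * bump D η (Phi w θ) := by
  have hQ := Q_pos hw (norm_Phi hw θ).le
  rcases (bump_nonneg D η (Phi w θ)).eq_or_lt with h | h
  · have h1 : pk D ν η (Phi w θ) = 0 := by
      unfold pk
      rw [← h]; simp
    unfold dpk
    rw [h1, ← h]
    simp
  · have h1 : dpk D ν η w θ - Complex.I * μ * pk D ν η (Phi w θ) =
        Complex.I * ((ν * Q w (Phi w θ) - μ : ℝ) : ℂ) * pk D ν η (Phi w θ) +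
        Phi w θ ^ ν * ((2 * bump D η (Phi w θ) * dslope D η w θ : ℝ) : ℂ) := by
      unfold dpk
      push_cast
      ring
    rw [h1]
    refine (norm_add_le _ _).trans (add_le_add ?_ ?_)
    · rw [norm_mul, norm_mul, Complex.norm_I, one_mul, Complex.norm_real, Real.norm_eq_abs]
      exact mul_le_mul (hA h) (norm_pk_le hw D ν η θ) (norm_nonneg _) ((abs_nonneg _).trans (hA h))
    · rw [norm_mul, norm_pow, norm_Phi hw, one_pow, one_mul, Complex.norm_real, Real.norm_eq_abs,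
        abs_mul, abs_mul, abs_two, abs_of_pos h]
      have h2 := dslope_le hw D η θ
      have h3 := dist_of_bump hD h
      rw [lt_div_iff₀ hD] at h3
      have h4 : 2 * D ^ 2 * ‖Phi w θ - η‖ * Q w (Phi w θ) ≤ 2 * D * Q w (Phi w θ) := by
        have : 0 ≤ 2 * D * Q w (Phi w θ) := by positivity
        nlinarith
      nlinarith

/-- The mass of a bump on the circle. -/
theorem integral_bump_le {D : ℝ} (hD : 0 < D) (t : ℝ) :
    ∫ θ in (0 : ℝ)..(2 * π), bump D (E t) (E θ) ^ 2 ≤ 5 / D := by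
  have hper : Function.Periodic (fun θ => bump D 1 (E θ) ^ 2) (2 * π) := fun θ => by
    simp only
    rw [E_periodic θ]
  have h1 : ∀ θ : ℝ, bump D (E t) (E θ) = bump D 1 (E (θ - t)) := by
    intro θ
    unfold bump
    have : E θ - E t = E t * (E (θ - t) - 1) := by
      rw [mul_sub, ← E_add, mul_one]
      congr 2
      ring
    rw [this, norm_mul, norm_E, one_mul]
  simp only [h1]
  rw [intervalIntegral.integral_comp_sub_right (fun θ => bump D 1 (E θ) ^ 2) t]
  have h2 : 2 * π - t = 0 - t + 2 * π := by ring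
  rw [h2, hper.intervalIntegral_add_eq (0 - t) (-π)]
  have h3 : -π + 2 * π = π := by ring
  rw [h3]
  set c : ℝ := 2 * D / π with hc
  have hc0 : 0 < c := by positivity
  have h4 : ∀ θ ∈ Icc (-π) π, bump D 1 (E θ) ^ 2 ≤ (1 + (c * θ) ^ 2)⁻¹ := by
    intro θ hθ
    have hb0 := bump_nonneg D 1 (E θ)
    have hb1 := bump_le_one D 1 (E θ)
    have h5 : 2 / π * |θ / 2| ≤ |sin (θ / 2)| := by
      refine Real.mul_abs_le_abs_sin ?_
      rw [abs_le]
      constructor <;> linarith [hθ.1, hθ.2]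
    have h6 : ‖E θ - 1‖ = 2 * |sin (θ / 2)| := by
      rw [E, mul_comm, Complex.norm_exp_I_mul_ofReal_sub_one, Real.norm_eq_abs, abs_mul, abs_two]
    have h7 : (c * θ) ^ 2 ≤ D ^ 2 * ‖E θ - 1‖ ^ 2 := by
      have e1 : |c * θ| ≤ D * ‖E θ - 1‖ := by
        rw [h6, abs_mul, abs_of_pos hc0, hc]
        rw [abs_div, abs_two] at h5
        have e2 : 2 * D / π * |θ| = D * (2 * (2 / π * (|θ| / 2))) := by ring
        rw [e2]
        gcongr
      calc (c * θ) ^ 2 = |c * θ| ^ 2 := (sq_abs _).symm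
        _ ≤ (D * ‖E θ - 1‖) ^ 2 := by gcongr
        _ = _ := by ring
    have h8 : bump D 1 (E θ) ≤ (1 + (c * θ) ^ 2)⁻¹ := by
      unfold bump
      refine max_le (by positivity) ?_
      rw [← one_div, le_div_iff₀ (by positivity)]
      nlinarith [sq_nonneg (c * θ)]
    nlinarith
  have hEc := continuous_E
  have hbc := continuous_bump D 1
  calc ∫ θ in (-π)..π, bump D 1 (E θ) ^ 2 ≤ ∫ θ in (-π)..π, (1 + (c * θ) ^ 2)⁻¹ := by
        refine intervalIntegral.integral_mono_on (by linarith [pi_pos]) ?_ ?_ h4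
        · exact (by fun_prop : Continuous fun θ => bump D 1 (E θ) ^ 2).intervalIntegrable _ _
        · refine (Continuous.inv₀ (by fun_prop) fun θ => ?_).intervalIntegrable _ _
          positivity
    _ = c⁻¹ * (arctan (c * π) - arctan (c * (-π))) := by
        rw [intervalIntegral.integral_comp_mul_left (fun x : ℝ => (1 + x ^ 2)⁻¹) hc0.ne',
          integral_inv_one_add_sq, smul_eq_mul]
    _ ≤ 5 / D := by
        have a1 := Real.arctan_lt_pi_div_two (c * π)
        have a2 := Real.neg_pi_div_two_lt_arctan (c * (-π))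
        have a3 : c⁻¹ * (arctan (c * π) - arctan (c * (-π))) ≤ c⁻¹ * π := by
          gcongr
          linarith
        refine a3.trans ?_
        rw [hc, inv_div, div_mul_eq_mul_div, div_le_div_iff₀ (by positivity) hD]
        have := Real.pi_lt_d2
        have := Real.pi_gt_d2
        have : π * π ≤ 10 := by nlinarith
        nlinarith

theorem integral_bump_Phi_le {w : ℂ} (hw : ‖w‖ < 1) {D : ℝ} (hD : 0 < D) (t : ℝ) :
    ∫ θ in (0 : ℝ)..(2 * π), bump D (E t) (Phi w θ) ^ 2 ≤ 5 / ((1 - ‖w‖) ^ 2 * D) := by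
  have h0 : 0 < (1 - ‖w‖) ^ 2 := by
    have : 0 < 1 - ‖w‖ := by linarith
    positivity
  have hEc := continuous_E
  have hbc := continuous_bump D (E t)
  have hPc := continuous_Phi hw
  have hQc : Continuous fun θ => Q w (Phi w θ) := (continuous_Q w).comp hPc
  have h1 := change_var (H := fun ζ => bump D (E t) ζ ^ 2) hw (by fun_prop)
  have h2 := integral_bump_le hD t
  have h3 : (1 - ‖w‖) ^ 2 * ∫ θ in (0 : ℝ)..(2 * π), bump D (E t) (Phi w θ) ^ 2 ≤ 5 / D := by
    rw [← intervalIntegral.integral_const_mul]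
    refine le_trans ?_ (h1.le.trans h2)
    refine intervalIntegral.integral_mono_on (by positivity) ?_ ?_ ?_
    · exact (by fun_prop : Continuous fun θ => (1 - ‖w‖) ^ 2 * bump D (E t) (Phi w θ) ^ 2).intervalIntegrable _ _
    · exact (by fun_prop : Continuous fun θ => Q w (Phi w θ) • bump D (E t) (Phi w θ) ^ 2).intervalIntegrable _ _
    · intro θ _
      rw [smul_eq_mul]
      exact mul_le_mul_of_nonneg_right (Q_ge hw (norm_Phi hw θ).le) (by positivity)
  rw [div_mul_eq_div_div_swap, le_div_iff₀ h0, mul_comm]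
  exact h3

end Pool.Agent.J4H53.MS
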