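import Pool.Agent.J4H53.MS.Family

/-!
# Condensation of singularities and the final function
-/

open Real MeasureTheory Set Filter
open scoped Topology ComplexConjugate

namespace Pool.Agent.J4H53.MS

theorem l1_summable (c : lp (fun _ : ℕ => ℂ) 1) : Summable fun k => ‖c k‖ := by
  have h := (lp.memℓp c).summable (by simp)
  simpa using h

theorem l1_norm (c : lp (fun _ : ℕ => ℂ) 1) : ‖c‖ = ∑' k, ‖c k‖ := by
  have h := lp.norm_eq_tsum_rpow (by simp) c
  simpa using h

/-- The functional given by a bounded sequence. -/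
noncomputable def funL (v : ℕ → ℂ) (B : ℝ) (hv : ∀ k, ‖v k‖ ≤ B) :
    lp (fun _ : ℕ => ℂ) 1 →L[ℂ] ℂ :=
  have hs : ∀ c : lp (fun _ : ℕ => ℂ) 1, Summable fun k => c k * v k := fun c => by
    refine Summable.of_norm_bounded ((l1_summable c).mul_right B) fun k => ?_
    rw [norm_mul]
    exact mul_le_mul_of_nonneg_left (hv k) (norm_nonneg _)
  LinearMap.mkContinuous
    { toFun := fun c => ∑' k, c k * v k
      map_add' := fun c d => by
        rw [← (hs c).tsum_add (hs d)]
        refine tsum_congr fun k => ?_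
        rw [lp.coeFn_add, Pi.add_apply, add_mul]
      map_smul' := fun r c => by
        rw [RingHom.id_apply, smul_eq_mul, ← tsum_mul_left]
        refine tsum_congr fun k => ?_
        rw [lp.coeFn_smul, Pi.smul_apply, smul_eq_mul, mul_assoc] } B (fun c => by
    simp only [LinearMap.coe_mk, AddHom.coe_mk]
    rw [l1_norm, mul_comm]
    have h1 : Summable fun k => ‖c k * v k‖ := by
      refine Summable.of_nonneg_of_le (fun k => norm_nonneg _) (fun k => ?_)
        ((l1_summable c).mul_right B)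
      rw [norm_mul]
      exact mul_le_mul_of_nonneg_left (hv k) (norm_nonneg _)
    refine (norm_tsum_le_tsum_norm h1).trans ?_
    rw [← tsum_mul_right]
    refine h1.tsum_le_tsum (fun k => ?_) ((l1_summable c).mul_right B)
    rw [norm_mul]
    exact mul_le_mul_of_nonneg_left (hv k) (norm_nonneg _))

theorem funL_apply (v : ℕ → ℂ) (B : ℝ) (hv : ∀ k, ‖v k‖ ≤ B) (c : lp (fun _ : ℕ => ℂ) 1) :
    funL v B hv c = ∑' k, c k * v k := rfl

/-- Condensation of singularities. -/
theorem exists_seq {a : ℕ → ℕ → ℂ} (h1 : ∀ k n, ‖a k n‖ ≤ 1)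
    (h2 : ∀ C : ℝ, ∃ k, ∃ T : Finset ℕ, C < ∑ n ∈ T, ‖a k n‖) :
    ∃ c : ℕ → ℂ, Summable (fun k => ‖c k‖) ∧ ¬ Summable (fun n => ‖∑' k, c k * a k n‖) := by
  by_contra hcon
  push Not at hcon
  -- index set: finite sets with unimodular multipliers
  let ι := { q : Finset ℕ × (ℕ → ℂ) // ∀ n, ‖q.2 n‖ ≤ 1 }
  have hv : ∀ q : ι, ∀ k, ‖∑ n ∈ q.1.1, q.1.2 n * a k n‖ ≤ (q.1.1.card : ℝ) := by
    intro q k
    refine (norm_sum_le _ _).trans ?_
    calc ∑ n ∈ q.1.1, ‖q.1.2 n * a k n‖ ≤ ∑ n ∈ q.1.1, (1 : ℝ) := by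
          refine Finset.sum_le_sum fun n _ => ?_
          rw [norm_mul]
          exact mul_le_one₀ (q.2 n) (norm_nonneg _) (h1 k n)
      _ = _ := by simp
  obtain ⟨C', hC'⟩ := banach_steinhaus (g := fun q : ι => funL _ _ (hv q)) (by
    intro c
    have hc := hcon (fun k => c k) (l1_summable c)
    refine ⟨∑' n, ‖∑' k, c k * a k n‖, fun q => ?_⟩
    rw [funL_apply]
    have hs : ∀ n, Summable fun k => c k * a k n := fun n => by
      refine Summable.of_norm_bounded (l1_summable c) fun k => ?_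
      rw [norm_mul]
      exact mul_le_of_le_one_right (norm_nonneg _) (h1 k n)
    have e1 : ∑' k, c k * ∑ n ∈ q.1.1, q.1.2 n * a k n =
        ∑ n ∈ q.1.1, q.1.2 n * ∑' k, c k * a k n := by
      simp only [← tsum_mul_left]
      rw [← Summable.tsum_finsetSum]
      · refine tsum_congr fun k => ?_
        rw [Finset.mul_sum]
        refine Finset.sum_congr rfl fun n _ => ?_
        ring
      · intro n _
        exact (hs n).mul_left _
    rw [e1]
    refine (norm_sum_le _ _).trans ?_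
    refine le_trans (Finset.sum_le_sum fun n _ => ?_) (hc.sum_le_tsum q.1.1 fun n _ => norm_nonneg _)
    rw [norm_mul]
    exact mul_le_of_le_one_left (norm_nonneg _) (q.2 n))
  obtain ⟨k, T, hT⟩ := h2 C'
  let u : ℕ → ℂ := fun n => if a k n = 0 then 0 else (‖a k n‖ : ℂ) / a k n
  have hu : ∀ n, ‖u n‖ ≤ 1 := by
    intro n
    simp only [u]
    split
    · simp
    · rename_i h
      rw [norm_div, Complex.norm_real, norm_norm, div_self (by simpa using h)]
  have hua : ∀ n, u n * a k n = (‖a k n‖ : ℂ) := by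
    intro n
    simp only [u]
    split
    · rename_i h
      rw [h]; simp
    · rename_i h
      field_simp
  have h3 := hC' ⟨(T, u), hu⟩
  have h4 := (funL _ _ (hv ⟨(T, u), hu⟩)).le_of_opNorm_le h3 (lp.single 1 k (1 : ℂ))
  rw [lp.norm_single (by simp), norm_one, mul_one, funL_apply, tsum_eq_single k] at h4
  · rw [lp.coeFn_single, Pi.single_eq_same, one_mul] at h4
    simp only [hua] at h4
    rw [← Complex.ofReal_sum, Complex.norm_real, Real.norm_eq_abs] at h4
    have := le_abs_self (∑ n ∈ T, ‖a k n‖)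
    linarith
  · intro j hj
    rw [lp.coeFn_single, Pi.single_eq_of_ne hj, zero_mul]

/-- Interchanging the order of summation. -/
theorem swap_sum {c : ℕ → ℂ} {b : ℕ → ℕ → ℂ} {s : ℕ → ℂ} {z : ℂ}
    (hs : Summable fun p : ℕ × ℕ => c p.1 * (b p.1 p.2 * z ^ p.2))
    (hb : ∀ k, HasSum (fun m => b k m * z ^ m) (s k)) :
    HasSum (fun m => (∑' k, c k * b k m) * z ^ m) (∑' k, c k * s k) := by
  have h1 := hs.hasSum
  have h2 := h1.prod_fiberwise fun k => (hb k).mul_left (c k)
  rw [h2.tsum_eq]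
  have h3 : HasSum (fun p : ℕ × ℕ => c p.2 * (b p.2 p.1 * z ^ p.1))
      (∑' p : ℕ × ℕ, c p.1 * (b p.1 p.2 * z ^ p.2)) :=
    (Equiv.prodComm ℕ ℕ).hasSum_iff.mpr h1
  refine h3.prod_fiberwise fun m => ?_
  have h4 := (h3.summable.prod_factor m).hasSum
  have h5 : ∑' k, c k * (b k m * z ^ m) = (∑' k, c k * b k m) * z ^ m := by
    rw [← tsum_mul_right]
    refine tsum_congr fun k => ?_
    ring
  rw [← h5]
  exact h4

theorem pow_summable {c : ℕ → ℂ} (hc : Summable fun k => ‖c k‖) {b : ℕ → ℕ → ℂ} {B : ℝ}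
    (hb : ∀ k m, ‖b k m‖ ≤ B) {z : ℂ} (hz : ‖z‖ < 1) :
    Summable fun p : ℕ × ℕ => c p.1 * (b p.1 p.2 * z ^ p.2) := by
  have h1 : Summable fun p : ℕ × ℕ => ‖c p.1‖ * (B * ‖z‖ ^ p.2) :=
    hc.mul_of_nonneg ((summable_geometric_of_lt_one (norm_nonneg z) hz).mul_left B)
      (fun k => norm_nonneg _) (fun m => by
        have := (norm_nonneg _).trans (hb 0 0)
        positivity)
  refine Summable.of_norm_bounded h1 fun p => ?_
  rw [norm_mul, norm_mul, norm_pow]
  gcongr
  exact hb _ _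

/-- The set of shifts with an absolutely convergent Taylor series. -/
def W (f : ℂ → ℂ) : Set ℂ :=
  { w | ‖w‖ < 1 ∧ ∃ a : ℕ → ℂ, Summable (fun n => ‖a n‖) ∧
    ∀ z : ℂ, ‖z‖ < 1 → HasSum (fun n => a n * z ^ n) (f ((z - w) / (1 - conj w * z))) }

/-- Uniqueness of Taylor coefficients. -/
theorem coef_unique {f : ℂ → ℂ} {a b : ℕ → ℂ}
    (ha : ∀ z : ℂ, ‖z‖ < 1 → HasSum (fun n => a n * z ^ n) (f z))
    (hb : ∀ z : ℂ, ‖z‖ < 1 → HasSum (fun n => b n * z ^ n) (f z)) : a = b := by
  have key : ∀ a : ℕ → ℂ, (∀ z : ℂ, ‖z‖ < 1 → HasSum (fun n => a n * z ^ n) (f z)) →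
      HasFPowerSeriesAt f (FormalMultilinearSeries.ofScalars ℂ a) 0 := by
    intro a ha
    rw [hasFPowerSeriesAt_iff]
    filter_upwards [Metric.ball_mem_nhds (0 : ℂ) one_pos] with z hz
    rw [mem_ball_zero_iff] at hz
    simp only [FormalMultilinearSeries.coeff_ofScalars, smul_eq_mul, zero_add]
    refine (ha z hz).congr_fun fun n => ?_
    ring
  have h := (key a ha).eq_formalMultilinearSeries (key b hb)
  funext n
  have := congrArg (fun p => FormalMultilinearSeries.coeff p n) h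
  simpa using this

end Pool.Agent.J4H53.MS
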