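import Pool.Agent.J4H53.MS.Packet

/-!
# The upper bound for a family of wave packets seen from a non-real point
-/

open Real MeasureTheory Set Filter
open scoped Topology ComplexConjugate

namespace Pool.Agent.J4H53.MS

/-- The relative angular slope at `1` of the speed. -/
noncomputable def tau (w : ℂ) : ℝ := 2 * w.im / ‖1 + conj w‖ ^ 2

/-- A bound for the speed. -/
noncomputable def KK (w : ℂ) : ℝ := 4 / (1 - ‖w‖ ^ 2)

theorem KK_ge {w : ℂ} (hw : ‖w‖ < 1) : 4 ≤ KK w := by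
  unfold KK
  rw [le_div_iff₀ (one_sub_sq_pos hw)]
  nlinarith [sq_nonneg ‖w‖]

theorem Q_lip {w ζ η : ℂ} (hw : ‖w‖ < 1) (hζ : ‖ζ‖ ≤ 1) (hη : ‖η‖ ≤ 1) :
    |Q w ζ - Q w η| ≤ KK w * ‖ζ - η‖ := by
  unfold Q KK
  have h0 := one_sub_sq_pos hw
  rw [← sub_div, abs_div, abs_of_pos h0, div_mul_eq_mul_div]
  refine div_le_div_of_nonneg_right ?_ h0.le
  set a := ‖1 + conj w * ζ‖ with ha
  set b := ‖1 + conj w * η‖ with hb
  have h1 : ∀ x : ℂ, ‖x‖ ≤ 1 → ‖1 + conj w * x‖ ≤ 2 := by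
    intro x hx
    refine (norm_add_le _ _).trans ?_
    rw [norm_one, norm_mul, RCLike.norm_conj]
    nlinarith [norm_nonneg w, norm_nonneg x]
  have ha2 := h1 ζ hζ
  have hb2 := h1 η hη
  rw [← ha] at ha2
  rw [← hb] at hb2
  have ha0 : 0 ≤ a := norm_nonneg _
  have hb0 : 0 ≤ b := norm_nonneg _
  have h2 : |a - b| ≤ ‖ζ - η‖ := by
    refine (abs_norm_sub_norm_le _ _).trans ?_
    have : 1 + conj w * ζ - (1 + conj w * η) = conj w * (ζ - η) := by ring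
    rw [this, norm_mul, RCLike.norm_conj]
    nlinarith [norm_nonneg w, norm_nonneg (ζ - η)]
  have h3 : a ^ 2 - b ^ 2 = (a - b) * (a + b) := by ring
  rw [h3, abs_mul, abs_of_nonneg (add_nonneg ha0 hb0)]
  nlinarith [abs_nonneg (a - b), norm_nonneg (ζ - η)]

theorem norm_one_add_sq (w : ℂ) (θ : ℝ) :
    ‖1 + conj w * E θ‖ ^ 2 = 1 + ‖w‖ ^ 2 + 2 * w.re * cos θ + 2 * w.im * sin θ := by
  have e : ∀ x : ℂ, ‖x‖ ^ 2 = x.re ^ 2 + x.im ^ 2 := fun x => by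
    rw [← Complex.normSq_eq_norm_sq, Complex.normSq_apply]; ring
  have h1 : (E θ).re = cos θ := by rw [E, Complex.exp_ofReal_mul_I_re]
  have h2 : (E θ).im = sin θ := by rw [E, Complex.exp_ofReal_mul_I_im]
  rw [e, e w]
  simp only [Complex.add_re, Complex.add_im, Complex.mul_re, Complex.mul_im, Complex.conj_re,
    Complex.conj_im, Complex.one_re, Complex.one_im, h1, h2]
  have := sin_sq_add_cos_sq θ
  linear_combination (w.re ^ 2 + w.im ^ 2) * this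

theorem Q_one_tau {w : ℂ} (hw : ‖w‖ < 1) : Q w 1 * tau w = 2 * w.im / (1 - ‖w‖ ^ 2) := by
  have h0 := one_sub_sq_pos hw
  have h1 : ‖1 + conj w‖ ≠ 0 := by
    have := Q_pos (w := w) (ζ := 1) hw (by simp)
    intro h
    rw [Q, mul_one, h] at this
    simp at this
  unfold Q tau
  rw [mul_one]
  field_simp

theorem Q_expand {w : ℂ} (hw : ‖w‖ < 1) {θ : ℝ} (hθ : |θ| ≤ 1) :
    |Q w (E θ) - Q w 1 * (1 + tau w * θ)| ≤ KK w / 2 * θ ^ 2 := by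
  have h0 := one_sub_sq_pos hw
  have h1 : Q w (E θ) - Q w 1 * (1 + tau w * θ) =
      (2 * w.re * (cos θ - 1) + 2 * w.im * (sin θ - θ)) / (1 - ‖w‖ ^ 2) := by
    have e0 := Q_one_tau hw
    have e1 : Q w 1 = (1 + ‖w‖ ^ 2 + 2 * w.re) / (1 - ‖w‖ ^ 2) := by
      have := norm_one_add_sq w 0
      rw [E_zero, cos_zero, sin_zero] at this
      rw [Q, this]
      ring
    have e2 : Q w (E θ) = (1 + ‖w‖ ^ 2 + 2 * w.re * cos θ + 2 * w.im * sin θ) / (1 - ‖w‖ ^ 2) := by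
      rw [Q, norm_one_add_sq]
    have e3 : Q w 1 * (1 + tau w * θ) = Q w 1 + (Q w 1 * tau w) * θ := by ring
    rw [e3, e0, e2, e1]
    field_simp
    ring
  rw [h1, abs_div, abs_of_pos h0, KK]
  have h2 : |cos θ - 1| ≤ θ ^ 2 / 2 := by
    rw [abs_le]
    constructor
    · linarith [Real.one_sub_sq_div_two_le_cos (x := θ)]
    · linarith [Real.cos_le_one θ, sq_nonneg θ]
  have h3 : |sin θ - θ| ≤ θ ^ 2 / 2 := by
    have := Real.sin_bound hθ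
    have e1 : sin θ - θ = (sin θ - (θ - θ ^ 3 / 6)) + (-(θ ^ 3 / 6)) := by ring
    rw [e1]
    refine (abs_add_le _ _).trans ?_
    rw [abs_neg, abs_div, abs_pow, abs_of_pos (by norm_num : (0 : ℝ) < 6)]
    have e2 : |θ| ^ 4 ≤ |θ| ^ 2 := by
      apply pow_le_pow_of_le_one (abs_nonneg _) hθ (by norm_num)
    have e3 : |θ| ^ 3 ≤ |θ| ^ 2 := by
      apply pow_le_pow_of_le_one (abs_nonneg _) hθ (by norm_num)
    have e4 : |θ| ^ 2 = θ ^ 2 := sq_abs θ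
    nlinarith
  have h4 : |w.re| ≤ 1 := (Complex.abs_re_le_norm w).trans hw.le
  have h5 : |w.im| ≤ 1 := (Complex.abs_im_le_norm w).trans hw.le
  have h6 : |2 * w.re * (cos θ - 1) + 2 * w.im * (sin θ - θ)| ≤ 2 * θ ^ 2 := by
    refine (abs_add_le _ _).trans ?_
    rw [abs_mul, abs_mul, abs_mul, abs_mul, abs_two]
    nlinarith [abs_nonneg (cos θ - 1), abs_nonneg (sin θ - θ), abs_nonneg w.re, abs_nonneg w.im,
      sq_nonneg θ]
  calc |2 * w.re * (cos θ - 1) + 2 * w.im * (sin θ - θ)| / (1 - ‖w‖ ^ 2)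
      ≤ 2 * θ ^ 2 / (1 - ‖w‖ ^ 2) := div_le_div_of_nonneg_right h6 h0.le
    _ = 4 / (1 - ‖w‖ ^ 2) / 2 * θ ^ 2 := by ring

/-- The frequency of a packet seen from `w`. -/
theorem freq {w : ℂ} (hw : ‖w‖ < 1) {D R : ℝ} (hR : 1 ≤ R) (hD : R ^ 2 ≤ D) {y ξ : ℝ} (hy0 : 0 ≤ y)
    (hy : y ≤ R) (hξ : |ξ| ≤ R) :
    |(D ^ 2 + D * y) * Q w (E (ξ / D)) - Q w 1 * (D ^ 2 + D * (y + tau w * ξ))| ≤
      3 / 2 * KK w * D := by
  have hD0 : 0 < D := by nlinarith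
  have hRD : R ≤ D := by nlinarith
  have hK := KK_ge hw
  set θ := ξ / D with hθ
  have hθ1 : |θ| ≤ 1 := by
    rw [hθ, abs_div, abs_of_pos hD0, div_le_one hD0]
    linarith
  have h1 := Q_expand hw hθ1
  set e := Q w (E θ) - Q w 1 * (1 + tau w * θ) with he
  have h2 : Q w (E θ) = Q w 1 * (1 + tau w * θ) + e := by rw [he]; ring
  have h3 : θ * D = ξ := by rw [hθ]; field_simp
  have h4 : (D ^ 2 + D * y) * Q w (E θ) - Q w 1 * (D ^ 2 + D * (y + tau w * ξ)) =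
      (Q w 1 * tau w) * (y * ξ) + (D ^ 2 + D * y) * e := by
    rw [h2]
    linear_combination (Q w 1 * tau w * (D + y)) * h3
  rw [h4, Q_one_tau hw]
  have h0 := one_sub_sq_pos hw
  have h5 : |w.im| ≤ 1 := (Complex.abs_im_le_norm w).trans hw.le
  have h6 : |2 * w.im / (1 - ‖w‖ ^ 2)| ≤ KK w / 2 := by
    rw [abs_div, abs_mul, abs_two, abs_of_pos h0, KK]
    rw [div_div, mul_comm _ (2 : ℝ), ← div_div]
    refine div_le_div_of_nonneg_right ?_ h0.le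
    linarith
  have h7 : |y * ξ| ≤ D := by
    rw [abs_mul, abs_of_nonneg hy0]
    nlinarith [abs_nonneg ξ]
  have h8 : (D ^ 2 + D * y) * θ ^ 2 ≤ 2 * D := by
    have e1 : θ ^ 2 * D ^ 2 = ξ ^ 2 := by rw [← h3]; ring
    have e2 : ξ ^ 2 ≤ R ^ 2 := by
      rw [← sq_abs ξ]
      gcongr
    have e3 : (D ^ 2 + D * y) ≤ 2 * D ^ 2 := by nlinarith
    nlinarith [sq_nonneg θ]
  have h9 : |(D ^ 2 + D * y) * e| ≤ KK w * D := by
    rw [abs_mul, abs_of_nonneg (by positivity : 0 ≤ D ^ 2 + D * y)]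
    calc (D ^ 2 + D * y) * |e| ≤ (D ^ 2 + D * y) * (KK w / 2 * θ ^ 2) := by gcongr
      _ = KK w / 2 * ((D ^ 2 + D * y) * θ ^ 2) := by ring
      _ ≤ KK w / 2 * (2 * D) := by gcongr
      _ = KK w * D := by ring
  refine (abs_add_le _ _).trans ?_
  rw [abs_mul]
  nlinarith [abs_nonneg (2 * w.im / (1 - ‖w‖ ^ 2)), abs_nonneg (y * ξ)]

/-- The cell of a packet. -/
noncomputable def cell (w : ℂ) (y : ℕ) (ξ : ℝ) : ℤ := ⌊(y : ℝ) + tau w * ξ⌋

/-- The central frequency of a cell. -/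
noncomputable def mid (w : ℂ) (D : ℝ) (c : ℤ) : ℤ := ⌊Q w 1 * (D ^ 2 + D * c)⌋

theorem freq_cell {w : ℂ} (hw : ‖w‖ < 1) {D : ℕ} {R : ℝ} (hR : 1 ≤ R) (hD : R ^ 2 ≤ D) {y : ℕ}
    {ξ : ℝ} (hy : y ≤ R) (hξ : |ξ| ≤ R) {ζ : ℂ} (hζ : ‖ζ‖ = 1)
    (hb : 0 < bump D (E (ξ / D)) ζ) :
    |((D ^ 2 + D * y : ℕ) : ℝ) * Q w ζ - mid w D (cell w y ξ)| ≤ 5 * KK w * D := by
  have hD0 : (0 : ℝ) < D := by nlinarith
  have hD1 : (1 : ℝ) ≤ D := by nlinarith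
  have hRD : R ≤ D := by nlinarith
  have hK := KK_ge hw
  have hy0 : (0 : ℝ) ≤ y := Nat.cast_nonneg y
  have h1 := freq hw hR hD hy0 hy hξ
  have h2 := (dist_of_bump hD0 hb).le
  have h3 := Q_lip hw hζ.le (norm_E (ξ / D)).le
  have hν0 : (0 : ℝ) ≤ (D : ℝ) ^ 2 + D * y := by positivity
  have hν : (D : ℝ) ^ 2 + D * y ≤ 2 * (D : ℝ) ^ 2 := by nlinarith
  have h4 : |((D : ℝ) ^ 2 + D * y) * Q w ζ - ((D : ℝ) ^ 2 + D * y) * Q w (E (ξ / D))| ≤
      2 * KK w * D := by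
    rw [← mul_sub, abs_mul, abs_of_nonneg hν0]
    have e1 : |Q w ζ - Q w (E (ξ / D))| ≤ KK w * (1 / D) := h3.trans (by gcongr)
    calc ((D : ℝ) ^ 2 + D * y) * |Q w ζ - Q w (E (ξ / D))| ≤ (2 * (D : ℝ) ^ 2) * (KK w * (1 / D)) := by
          gcongr
      _ = 2 * KK w * D := by field_simp
  have h5 : |Q w 1 * ((D : ℝ) ^ 2 + D * (y + tau w * ξ)) - Q w 1 * ((D : ℝ) ^ 2 + D * cell w y ξ)| ≤
      KK w * D := by
    have e1 : Q w 1 * ((D : ℝ) ^ 2 + D * (y + tau w * ξ)) - Q w 1 * ((D : ℝ) ^ 2 + D * cell w y ξ) =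
        (Q w 1 * D) * ((y + tau w * ξ) - cell w y ξ) := by ring
    have e2 := Q_le (w := w) (ζ := 1) hw (by simp)
    have e3 := Q_pos (w := w) (ζ := 1) hw (by simp)
    rw [e1, abs_mul, abs_of_pos (by positivity)]
    have e4 : |((y : ℝ) + tau w * ξ) - cell w y ξ| ≤ 1 := by
      unfold cell
      rw [abs_le]
      constructor
      · linarith [Int.floor_le ((y : ℝ) + tau w * ξ)]
      · linarith [Int.lt_floor_add_one ((y : ℝ) + tau w * ξ)]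
    change Q w 1 ≤ KK w at e2
    calc Q w 1 * D * |((y : ℝ) + tau w * ξ) - cell w y ξ| ≤ KK w * D * 1 := by gcongr
      _ = KK w * D := by ring
  have h6 : |Q w 1 * ((D : ℝ) ^ 2 + D * cell w y ξ) - mid w D (cell w y ξ)| ≤ 1 := by
    unfold mid
    rw [abs_le]
    constructor
    · linarith [Int.floor_le (Q w 1 * ((D : ℝ) ^ 2 + D * cell w y ξ))]
    · linarith [Int.lt_floor_add_one (Q w 1 * ((D : ℝ) ^ 2 + D * cell w y ξ))]
  push_cast
  rw [abs_le] at h1 h4 h5 h6 ⊢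
  constructor <;> nlinarith

end Pool.Agent.J4H53.MS
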